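import Mathlib

/-! A verified checker for polynomial inequalities on boxes in five variables:
affine arithmetic in fixed point, bisection driven by a code number. -/

namespace Pool.Agent.MP_d3fa2a_an.Q4L

/-- affine form, in units of `2 ^ (-40)` -/
structure AF where
  c : ℤ
  a0 : ℤ
  a1 : ℤ
  a2 : ℤ
  a3 : ℤ
  a4 : ℤ
  e : ℕ

/-- midpoint and radius, in units of `2 ^ (-40)` -/
structure Iv where
  m : ℤ
  r : ℕ

/-- five noise values -/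
structure Ns where
  p0 : ℝ
  p1 : ℝ
  p2 : ℝ
  p3 : ℝ
  p4 : ℝ
  h0 : |p0| ≤ 1
  h1 : |p1| ≤ 1
  h2 : |p2| ≤ 1
  h3 : |p3| ≤ 1
  h4 : |p4| ≤ 1

def AF.rad (a : AF) : ℕ :=
  Nat.add (Nat.add (Nat.add (Int.natAbs a.a0) (Int.natAbs a.a1))
    (Nat.add (Int.natAbs a.a2) (Int.natAbs a.a3))) (Nat.add (Int.natAbs a.a4) a.e)

def AF.add (a b : AF) : AF :=
  ⟨Int.add a.c b.c, Int.add a.a0 b.a0, Int.add a.a1 b.a1, Int.add a.a2 b.a2, Int.add a.a3 b.a3,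
    Int.add a.a4 b.a4, Nat.add a.e b.e⟩

def AF.sub (a b : AF) : AF :=
  ⟨Int.sub a.c b.c, Int.sub a.a0 b.a0, Int.sub a.a1 b.a1, Int.sub a.a2 b.a2, Int.sub a.a3 b.a3,
    Int.sub a.a4 b.a4, Nat.add a.e b.e⟩

def sh (z : ℤ) : ℤ := Int.shiftRight z 40

def cr (p q x y : ℤ) : ℤ := sh (Int.add (Int.mul p y) (Int.mul q x))

def AF.mul (a b : AF) : AF :=
  ⟨sh (Int.mul a.c b.c), cr a.c b.c a.a0 b.a0, cr a.c b.c a.a1 b.a1, cr a.c b.c a.a2 b.a2,
    cr a.c b.c a.a3 b.a3, cr a.c b.c a.a4 b.a4,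
    Nat.add (Nat.shiftRight (Nat.add (Nat.mul a.rad b.rad)
      (Nat.add (Nat.mul (Int.natAbs a.c) b.e) (Nat.mul (Int.natAbs b.c) a.e))) 40) 7⟩

def AF.cm (k : Iv) (a : AF) : AF :=
  ⟨sh (Int.mul k.m a.c), sh (Int.mul k.m a.a0), sh (Int.mul k.m a.a1), sh (Int.mul k.m a.a2),
    sh (Int.mul k.m a.a3), sh (Int.mul k.m a.a4),
    Nat.add (Nat.shiftRight (Nat.add (Nat.mul (Int.natAbs k.m) a.e)
      (Nat.mul k.r (Nat.add (Int.natAbs a.c) a.rad))) 40) 7⟩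

def AF.neg (a : AF) : Bool := decide (Int.add a.c (Int.ofNat a.rad) < 0)

noncomputable def AF.lin (a : AF) (n : Ns) : ℝ :=
  a.a0 * n.p0 + a.a1 * n.p1 + a.a2 * n.p2 + a.a3 * n.p3 + a.a4 * n.p4

def Mem (n : Ns) (x : ℝ) (a : AF) : Prop := |x * 2 ^ 40 - (a.c + a.lin n)| ≤ (a.e : ℝ)

def InI (x : ℝ) (I : Iv) : Prop := |x * 2 ^ 40 - I.m| ≤ (I.r : ℝ)

lemma rad_eq (a : AF) : (a.rad : ℝ) =
    |(a.a0 : ℝ)| + |(a.a1 : ℝ)| + |(a.a2 : ℝ)| + |(a.a3 : ℝ)| + |(a.a4 : ℝ)| + a.e := by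
  simp only [AF.rad, Nat.add_eq, Nat.cast_add, Nat.cast_natAbs, Int.cast_abs]
  ring

lemma amul {a p : ℝ} (h : |p| ≤ 1) : |a * p| ≤ |a| := by
  rw [abs_mul]
  exact mul_le_of_le_one_right (abs_nonneg _) h

lemma lin_le (a : AF) (n : Ns) : |a.lin n| + a.e ≤ a.rad := by
  rw [rad_eq]
  have h0 := abs_le.1 (amul (a := a.a0) n.h0)
  have h1 := abs_le.1 (amul (a := a.a1) n.h1)
  have h2 := abs_le.1 (amul (a := a.a2) n.h2)
  have h3 := abs_le.1 (amul (a := a.a3) n.h3)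
  have h4 := abs_le.1 (amul (a := a.a4) n.h4)
  have : |a.lin n| ≤ |(a.a0 : ℝ)| + |(a.a1 : ℝ)| + |(a.a2 : ℝ)| + |(a.a3 : ℝ)| + |(a.a4 : ℝ)| := by
    unfold AF.lin
    rw [abs_le]
    constructor <;> linarith [h0.1, h0.2, h1.1, h1.2, h2.1, h2.2, h3.1, h3.2, h4.1, h4.2]
  linarith

lemma sh_spec (z : ℤ) : ∃ θ : ℝ, |θ| ≤ 1 ∧ ((sh z : ℤ) : ℝ) = z / 2 ^ 40 - θ := by
  have e : sh z = z / 2 ^ 40 := by
    show z >>> (40 : ℕ) = _
    rw [Int.shiftRight_eq_div_pow]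
    norm_num
  have h : (0 : ℝ) < 2 ^ 40 := by positivity
  have h1 : ((z / 2 ^ 40 : ℤ) : ℝ) * 2 ^ 40 ≤ z := by
    have g : z / 2 ^ 40 * 2 ^ 40 ≤ z := by omega
    exact_mod_cast g
  have h2 : (z : ℝ) < (((z / 2 ^ 40 : ℤ) : ℝ) + 1) * 2 ^ 40 := by
    have g : z < (z / 2 ^ 40 + 1) * 2 ^ 40 := by omega
    exact_mod_cast g
  refine ⟨z / 2 ^ 40 - (sh z : ℤ), ?_, by ring⟩
  rw [e, abs_le]
  rw [← le_div_iff₀ h] at h1
  rw [← div_lt_iff₀ h] at h2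
  constructor <;> linarith

lemma shn_spec (z : ℕ) : (z : ℝ) / 2 ^ 40 ≤ (Nat.shiftRight z 40 : ℕ) + 1 := by
  have e : Nat.shiftRight z 40 = z / 2 ^ 40 := Nat.shiftRight_eq_div_pow z 40
  have h2 : (z : ℝ) < (((z / 2 ^ 40 : ℕ) : ℝ) + 1) * 2 ^ 40 := by
    have := Nat.lt_div_mul_add (a := z) (b := 2 ^ 40) (by norm_num)
    have h3 : z < (z / 2 ^ 40 + 1) * 2 ^ 40 := by rw [add_mul, one_mul]; exact this
    exact_mod_cast h3
  rw [e, div_le_iff₀ (by positivity)]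
  exact h2.le

variable {n : Ns} {x y : ℝ} {a b : AF}

lemma Mem.add (hx : Mem n x a) (hy : Mem n y b) : Mem n (x + y) (a.add b) := by
  simp only [Mem, AF.add, AF.lin, abs_le, Int.add_def, Nat.add_eq] at *
  push_cast
  constructor <;> linarith [hx.1, hx.2, hy.1, hy.2]

lemma Mem.sub (hx : Mem n x a) (hy : Mem n y b) : Mem n (x - y) (a.sub b) := by
  have e : ∀ p q : ℤ, Int.sub p q = p - q := fun _ _ => rfl
  simp only [Mem, AF.sub, AF.lin, abs_le, e, Nat.add_eq] at *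
  push_cast
  constructor <;> linarith [hx.1, hx.2, hy.1, hy.2]

lemma six {t0 t1 t2 t3 t4 t5 : ℝ} (n : Ns) (h0 : |t0| ≤ 1) (h1 : |t1| ≤ 1) (h2 : |t2| ≤ 1)
    (h3 : |t3| ≤ 1) (h4 : |t4| ≤ 1) (h5 : |t5| ≤ 1) :
    |t5 + (t0 * n.p0 + t1 * n.p1 + t2 * n.p2 + t3 * n.p3 + t4 * n.p4)| ≤ 6 := by
  have g0 := abs_le.1 ((amul (a := t0) n.h0).trans h0)
  have g1 := abs_le.1 ((amul (a := t1) n.h1).trans h1)
  have g2 := abs_le.1 ((amul (a := t2) n.h2).trans h2)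
  have g3 := abs_le.1 ((amul (a := t3) n.h3).trans h3)
  have g4 := abs_le.1 ((amul (a := t4) n.h4).trans h4)
  have g5 := abs_le.1 h5
  rw [abs_le]
  constructor <;> linarith [g0.1, g0.2, g1.1, g1.2, g2.1, g2.2, g3.1, g3.2, g4.1, g4.2, g5.1, g5.2]

lemma Mem.mul (hx : Mem n x a) (hy : Mem n y b) : Mem n (x * y) (a.mul b) := by
  obtain ⟨t5, k5, e5⟩ := sh_spec (a.c * b.c)
  obtain ⟨t0, k0, e0⟩ := sh_spec (a.c * b.a0 + b.c * a.a0)
  obtain ⟨t1, k1, e1⟩ := sh_spec (a.c * b.a1 + b.c * a.a1)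
  obtain ⟨t2, k2, e2⟩ := sh_spec (a.c * b.a2 + b.c * a.a2)
  obtain ⟨t3, k3, e3⟩ := sh_spec (a.c * b.a3 + b.c * a.a3)
  obtain ⟨t4, k4, e4⟩ := sh_spec (a.c * b.a4 + b.c * a.a4)
  have h6 := six n k0 k1 k2 k3 k4 k5
  have h7 := shn_spec (a.rad * b.rad + (a.c.natAbs * b.e + b.c.natAbs * a.e))
  set da := x * 2 ^ 40 - (a.c + a.lin n) with hda
  set db := y * 2 ^ 40 - (b.c + b.lin n) with hdb
  have gx : |da| ≤ a.e := hx
  have gy : |db| ≤ b.e := hy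
  have ha : |a.lin n + da| ≤ a.rad := (abs_add_le _ _).trans (by linarith [lin_le a n])
  have hb : |b.lin n + db| ≤ b.rad := (abs_add_le _ _).trans (by linarith [lin_le b n])
  have h8 : |(a.lin n + da) * (b.lin n + db) + (a.c * db + b.c * da)| ≤
      a.rad * b.rad + (|(a.c : ℝ)| * b.e + |(b.c : ℝ)| * a.e) := by
    refine (abs_add_le _ _).trans (add_le_add ?_ ((abs_add_le _ _).trans (add_le_add ?_ ?_)))
    · rw [abs_mul]; exact mul_le_mul ha hb (abs_nonneg _) (Nat.cast_nonneg _)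
    · rw [abs_mul]; exact mul_le_mul_of_nonneg_left hy (abs_nonneg _)
    · rw [abs_mul]; exact mul_le_mul_of_nonneg_left hx (abs_nonneg _)
  have e : x * y * 2 ^ 40 - (((a.mul b).c : ℝ) + (a.mul b).lin n) =
      ((a.lin n + da) * (b.lin n + db) + (a.c * db + b.c * da)) / 2 ^ 40 +
      (t5 + (t0 * n.p0 + t1 * n.p1 + t2 * n.p2 + t3 * n.p3 + t4 * n.p4)) := by
    simp only [AF.mul, AF.lin, cr, Int.add_def, Int.mul_def, e0, e1, e2, e3, e4, e5, hda, hdb]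
    push_cast
    field_simp
    ring
  unfold Mem
  rw [e]
  refine (abs_add_le _ _).trans ?_
  rw [abs_div, abs_of_pos (a := (2 : ℝ) ^ 40) (by positivity)]
  have h9 := div_le_div_of_nonneg_right h8 (c := 2 ^ 40) (by positivity)
  simp only [Nat.cast_add, Nat.cast_mul, Nat.cast_natAbs, Int.cast_abs] at h7
  simp only [AF.mul, Nat.add_eq, Nat.mul_eq, Nat.cast_add, Nat.cast_ofNat]
  linarith

lemma Mem.cm {k : Iv} (hx : InI x k) (hy : Mem n y a) : Mem n (x * y) (AF.cm k a) := by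
  obtain ⟨t5, k5, e5⟩ := sh_spec (k.m * a.c)
  obtain ⟨t0, k0, e0⟩ := sh_spec (k.m * a.a0)
  obtain ⟨t1, k1, e1⟩ := sh_spec (k.m * a.a1)
  obtain ⟨t2, k2, e2⟩ := sh_spec (k.m * a.a2)
  obtain ⟨t3, k3, e3⟩ := sh_spec (k.m * a.a3)
  obtain ⟨t4, k4, e4⟩ := sh_spec (k.m * a.a4)
  have h6 := six n k0 k1 k2 k3 k4 k5
  have h7 := shn_spec (k.m.natAbs * a.e + k.r * (a.c.natAbs + a.rad))
  set dk := x * 2 ^ 40 - k.m with hdk
  set da := y * 2 ^ 40 - (a.c + a.lin n) with hda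
  have gy : |da| ≤ a.e := hy
  have ha : |a.lin n + da| ≤ a.rad := (abs_add_le _ _).trans (by linarith [lin_le a n])
  have h8 : |k.m * da + dk * (a.c + (a.lin n + da))| ≤
      |(k.m : ℝ)| * a.e + k.r * (|(a.c : ℝ)| + a.rad) := by
    refine (abs_add_le _ _).trans (add_le_add ?_ ?_)
    · rw [abs_mul]; exact mul_le_mul_of_nonneg_left hy (abs_nonneg _)
    · rw [abs_mul]
      exact mul_le_mul hx ((abs_add_le _ _).trans (by linarith)) (abs_nonneg _) (Nat.cast_nonneg _)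
  have e : x * y * 2 ^ 40 - (((AF.cm k a).c : ℝ) + (AF.cm k a).lin n) =
      (k.m * da + dk * (a.c + (a.lin n + da))) / 2 ^ 40 +
      (t5 + (t0 * n.p0 + t1 * n.p1 + t2 * n.p2 + t3 * n.p3 + t4 * n.p4)) := by
    simp only [AF.cm, AF.lin, Int.mul_def, e0, e1, e2, e3, e4, e5, hda, hdk]
    push_cast
    field_simp
    ring
  unfold Mem
  rw [e]
  refine (abs_add_le _ _).trans ?_
  rw [abs_div, abs_of_pos (a := (2 : ℝ) ^ 40) (by positivity)]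
  have h9 := div_le_div_of_nonneg_right h8 (c := 2 ^ 40) (by positivity)
  simp only [Nat.cast_add, Nat.cast_mul, Nat.cast_natAbs, Int.cast_abs] at h7
  simp only [AF.cm, Nat.add_eq, Nat.mul_eq, Nat.cast_add, Nat.cast_ofNat]
  linarith

lemma Mem.lt_zero (hx : Mem n x a) (h : a.neg = true) : x < 0 := by
  have h1 : a.c + (a.rad : ℤ) < 0 := of_decide_eq_true h
  have h2 : (a.c : ℝ) + a.rad < 0 := by exact_mod_cast h1
  have h3 := (abs_le.1 hx).2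
  have h4 := lin_le a n
  have h5 := le_abs_self (a.lin n)
  by_contra h6
  have : 0 ≤ x * 2 ^ 40 := mul_nonneg (not_lt.1 h6) (by positivity)
  linarith

/-- expressions in five variables and a list of constants -/
inductive Ex
  | v0 | v1 | v2 | v3 | v4
  | k (i : ℕ)
  | cm (i : ℕ) (a : Ex)
  | add (a b : Ex)
  | sub (a b : Ex)
  | mul (a b : Ex)

/-- a point -/
structure Pt where
  x0 : ℝ
  x1 : ℝ
  x2 : ℝ
  x3 : ℝ
  x4 : ℝ

/-- a box -/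
structure Box where
  b0 : Iv
  b1 : Iv
  b2 : Iv
  b3 : Iv
  b4 : Iv

noncomputable def Ex.ev (x : Pt) (κ : List ℝ) : Ex → ℝ
  | v0 => x.x0
  | v1 => x.x1
  | v2 => x.x2
  | v3 => x.x3
  | v4 => x.x4
  | k i => κ.getD i 0
  | cm i a => κ.getD i 0 * a.ev x κ
  | add a b => a.ev x κ + b.ev x κ
  | sub a b => a.ev x κ - b.ev x κ
  | mul a b => a.ev x κ * b.ev x κ

def Iv.af (I : Iv) : AF := ⟨I.m, 0, 0, 0, 0, 0, I.r⟩

def Ex.iv (B : Box) (K : List Iv) : Ex → AF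
  | v0 => ⟨B.b0.m, Int.ofNat B.b0.r, 0, 0, 0, 0, 0⟩
  | v1 => ⟨B.b1.m, 0, Int.ofNat B.b1.r, 0, 0, 0, 0⟩
  | v2 => ⟨B.b2.m, 0, 0, Int.ofNat B.b2.r, 0, 0, 0⟩
  | v3 => ⟨B.b3.m, 0, 0, 0, Int.ofNat B.b3.r, 0, 0⟩
  | v4 => ⟨B.b4.m, 0, 0, 0, 0, Int.ofNat B.b4.r, 0⟩
  | k i => (K.getD i ⟨0, 0⟩).af
  | cm i a => AF.cm (K.getD i ⟨0, 0⟩) (a.iv B K)
  | add a b => (a.iv B K).add (b.iv B K)
  | sub a b => (a.iv B K).sub (b.iv B K)
  | mul a b => (a.iv B K).mul (b.iv B K)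

def InB (x : Pt) (B : Box) : Prop :=
  InI x.x0 B.b0 ∧ InI x.x1 B.b1 ∧ InI x.x2 B.b2 ∧ InI x.x3 B.b3 ∧ InI x.x4 B.b4

lemma noise {I : Iv} (h : InI x I) : ∃ p : ℝ, |p| ≤ 1 ∧ x * 2 ^ 40 = I.m + I.r * p := by
  rcases Nat.eq_zero_or_pos I.r with h0 | h0
  · refine ⟨0, by simp, ?_⟩
    unfold InI at h
    rw [h0, Nat.cast_zero, abs_nonpos_iff] at h
    linarith
  · have h1 : (0 : ℝ) < I.r := by exact_mod_cast h0
    refine ⟨(x * 2 ^ 40 - I.m) / I.r, ?_, by field_simp; ring⟩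
    rw [abs_div, abs_of_pos h1, div_le_one h1]
    exact h

lemma in_getD {κ : List ℝ} {K : List Iv} (h : List.Forall₂ InI κ K) (i : ℕ) :
    InI (κ.getD i 0) (K.getD i ⟨0, 0⟩) := by
  induction h generalizing i with
  | nil => simp [InI]
  | cons h _ ih => cases i with
    | zero => exact h
    | succ i => exact ih i

lemma mem_iv {X : Pt} {B : Box} {κ : List ℝ} {K : List Iv} (hB : InB X B)
    (hK : List.Forall₂ InI κ K) : ∃ n : Ns, ∀ t : Ex, Mem n (t.ev X κ) (t.iv B K) := by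
  obtain ⟨p0, h0, e0⟩ := noise hB.1
  obtain ⟨p1, h1, e1⟩ := noise hB.2.1
  obtain ⟨p2, h2, e2⟩ := noise hB.2.2.1
  obtain ⟨p3, h3, e3⟩ := noise hB.2.2.2.1
  obtain ⟨p4, h4, e4⟩ := noise hB.2.2.2.2
  refine ⟨⟨p0, p1, p2, p3, p4, h0, h1, h2, h3, h4⟩, fun t => ?_⟩
  induction t with
  | v0 => simp [Mem, Ex.ev, Ex.iv, AF.lin, e0]
  | v1 => simp [Mem, Ex.ev, Ex.iv, AF.lin, e1]
  | v2 => simp [Mem, Ex.ev, Ex.iv, AF.lin, e2]
  | v3 => simp [Mem, Ex.ev, Ex.iv, AF.lin, e3]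
  | v4 => simp [Mem, Ex.ev, Ex.iv, AF.lin, e4]
  | k i =>
    have := in_getD hK i
    simpa [Mem, Ex.ev, Ex.iv, AF.lin, Iv.af, InI] using this
  | cm i a ha => exact Mem.cm (in_getD hK i) ha
  | add a b ha hb => exact ha.add hb
  | sub a b ha hb => exact ha.sub hb
  | mul a b ha hb => exact ha.mul hb

def Iv.h (I : Iv) : ℕ := Nat.div (Nat.add I.r 1) 2

def Iv.lo (I : Iv) : Iv := ⟨Int.sub I.m (Int.ofNat I.h), I.h⟩

def Iv.hi (I : Iv) : Iv := ⟨Int.add I.m (Int.ofNat I.h), I.h⟩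

lemma InI.split {I : Iv} (hx : InI x I) : InI x I.lo ∨ InI x I.hi := by
  have h : (I.r : ℝ) ≤ 2 * I.h := by
    have : I.r ≤ 2 * ((I.r + 1) / 2) := by omega
    exact_mod_cast this
  have e : ∀ p q : ℤ, Int.sub p q = p - q := fun _ _ => rfl
  simp only [InI, Iv.lo, Iv.hi, abs_le, e, Int.add_def, Int.ofNat_eq_natCast, Int.cast_sub,
    Int.cast_add, Int.cast_natCast] at *
  rcases le_total (x * 2 ^ 40) (I.m : ℝ) with h1 | h1
  · exact Or.inl ⟨by linarith [hx.1], by linarith⟩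
  · exact Or.inr ⟨by linarith, by linarith [hx.2]⟩

def Box.mod (B : Box) (f : Iv → Iv) : ℕ → Box
  | 0 => ⟨f B.b0, B.b1, B.b2, B.b3, B.b4⟩
  | 1 => ⟨B.b0, f B.b1, B.b2, B.b3, B.b4⟩
  | 2 => ⟨B.b0, B.b1, f B.b2, B.b3, B.b4⟩
  | 3 => ⟨B.b0, B.b1, B.b2, f B.b3, B.b4⟩
  | _ => ⟨B.b0, B.b1, B.b2, B.b3, f B.b4⟩

lemma InB.split {X : Pt} {B : Box} (h : InB X B) (i : ℕ) :
    InB X (B.mod Iv.lo i) ∨ InB X (B.mod Iv.hi i) := by
  obtain ⟨h0, h1, h2, h3, h4⟩ := h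
  match i with
  | 0 => exact h0.split.imp (fun g => ⟨g, h1, h2, h3, h4⟩) fun g => ⟨g, h1, h2, h3, h4⟩
  | 1 => exact h1.split.imp (fun g => ⟨h0, g, h2, h3, h4⟩) fun g => ⟨h0, g, h2, h3, h4⟩
  | 2 => exact h2.split.imp (fun g => ⟨h0, h1, g, h3, h4⟩) fun g => ⟨h0, h1, g, h3, h4⟩
  | 3 => exact h3.split.imp (fun g => ⟨h0, h1, h2, g, h4⟩) fun g => ⟨h0, h1, h2, g, h4⟩
  | _ + 4 => exact h4.split.imp (fun g => ⟨h0, h1, h2, h3, g⟩) fun g => ⟨h0, h1, h2, h3, g⟩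

/-- test number `j` is negative on the box -/
def tst (T : List Ex) (K : List Iv) (j : ℕ) (B : Box) : Bool :=
  match T[j]? with
  | some t => (t.iv B K).neg
  | none => false

/-- digits below five bisect, the other digits name a test; the value is zero on failure and
otherwise one more than the unread code -/
def go (T : List Ex) (K : List Iv) : ℕ → ℕ → Box → ℕ
  | 0, _, _ => 0
  | f + 1, n, B =>
    match Nat.blt (Nat.mod n 16) 5 with
    | true =>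
      match go T K f (Nat.div n 16) (B.mod Iv.lo (Nat.mod n 16)) with
      | 0 => 0
      | m + 1 => go T K f m (B.mod Iv.hi (Nat.mod n 16))
    | false =>
      match tst T K (Nat.sub (Nat.mod n 16) 5) B with
      | true => Nat.succ (Nat.div n 16)
      | false => 0

theorem go_sound {T : List Ex} {K : List Iv} {κ : List ℝ} (hK : List.Forall₂ InI κ K) {X : Pt}
    (f : ℕ) : ∀ (n : ℕ) (B : Box), go T K f n B ≠ 0 → InB X B → ∃ t ∈ T, t.ev X κ < 0 := by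
  induction f with
  | zero => intro n B h; exact absurd rfl h
  | succ f ih =>
    intro n B h hB
    rw [go] at h
    split at h
    · split at h
      · exact absurd rfl h
      · rename_i m hm
        rcases hB.split (Nat.mod n 16) with g | g
        · exact ih _ _ (by rw [hm]; exact Nat.succ_ne_zero m) g
        · exact ih _ _ h g
    · split at h
      · rename_i ht
        unfold tst at ht
        split at ht
        · rename_i t e
          obtain ⟨n, hn⟩ := mem_iv hB hK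
          exact ⟨t, List.mem_of_getElem? e, (hn t).lt_zero ht⟩
        · exact absurd ht (by simp)
      · exact absurd rfl h

/-- the interval `[a / 10000, b / 10000]` -/
def Iv.mil (a b : ℤ) : Iv :=
  ⟨(a + b) * 2 ^ 39 / 10000, ((b - a) * 2 ^ 39 / 10000 + 2).toNat⟩

lemma in_mil {a b : ℤ} (h1 : a / 10000 ≤ x) (h2 : x ≤ b / 10000) : InI x (.mil a b) := by
  have h3 : (((a + b) * 2 ^ 39 / 10000 : ℤ) : ℝ) * 10000 -
      (((b - a) * 2 ^ 39 / 10000 + 2).toNat : ℤ) * 10000 ≤ a * 2 ^ 40 := by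
    exact_mod_cast (by omega)
  have h4 : (b : ℝ) * 2 ^ 40 ≤ (((a + b) * 2 ^ 39 / 10000 : ℤ) : ℝ) * 10000 +
      (((b - a) * 2 ^ 39 / 10000 + 2).toNat : ℤ) * 10000 := by
    exact_mod_cast (by omega)
  rw [Int.cast_natCast] at h3 h4
  exact abs_le.2 ⟨by simp only [Iv.mil]; linarith, by simp only [Iv.mil]; linarith⟩

/-- containment of an affine form in an interval -/
def AF.sub_iv (a : AF) (I : Iv) : Bool := decide ((a.c - I.m).natAbs + a.rad ≤ I.r)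

lemma Mem.inI {I : Iv} (hx : Mem n x a) (h : a.sub_iv I = true) : InI x I := by
  have h1 : (a.c - I.m).natAbs + a.rad ≤ I.r := of_decide_eq_true h
  have h2 : |(a.c : ℝ) - I.m| + a.rad ≤ I.r := by
    have : (((a.c - I.m).natAbs + a.rad : ℕ) : ℝ) ≤ I.r := by exact_mod_cast h1
    simpa only [Nat.cast_add, Nat.cast_natAbs, Int.cast_abs, Int.cast_sub] using this
  have h3 := abs_le.1 hx
  have h4 := lin_le a n
  have h5 := abs_le.1 (le_refl |a.lin n|)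
  have h6 := abs_le.1 (le_refl |(a.c : ℝ) - I.m|)
  exact abs_le.2 ⟨by linarith [h3.1, h5.1, h6.1], by linarith [h3.2, h5.2, h6.2]⟩

end Pool.Agent.MP_d3fa2a_an.Q4L
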