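import Pool.Agent.MP_d3fa2a_an.Q4L.Prog

/-! Kernel checks of the box inequalities. -/

namespace Pool.Agent.MP_d3fa2a_an.Q4L

open Ex

theorem chkC : go [disc, tC] kN 60
    0x6626622662662346626624366266226636632466363664632326626623662662346626336626623662546623466263662432466266346626624366266362466266243266266236626623466463366266236626623466266243246626624666326626343662663663236626636632342663663266366324666326663243662663663236636632663666332342422
    (bx 0 0 0 0 0 800 3000 10000 (-10000) 10000) ≠ 0 := by
  decide +kernel

theorem chkB : go [disc, tB] kN 60
    0x6646262
    (bx 0 0 0 2500 0 800 3000 10000 (-10000) 10000) ≠ 0 := by
  decide +kernel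

theorem chkA : go [disc, tA] kN 60
    0x662
    (bx 0 5500 0 2500 0 800 3000 10000 (-10000) 10000) ≠ 0 := by
  decide +kernel

theorem chkP : go [disc, eL xe, tP, psi xe yp] kN 60
    0x665556808234468082780246657463274556338838448420613874770742406155788204478820788102477720782446677426388274638827704672670463120774617707466706704063124016575586143047861820478040655882448824772402677277040461326665672484578047427724061637670240616323066727405577708204478810778102478084780842406555677077721203446886118677301206708827884077808402102467808407780840266670774277702407884787312057723544201401675882487240778204775771477140077810420677074780842046667727461772770467267241267727461230677477426761761463210400136665567233871478047407788207704077242774774246667074274266702430061367075578143787801040788721040777188831777012778014002777808400777808400246677717712078140670777177020771402670847774024666707274061637726140303675877023788204077781840045575877023044787884017878084102046657724772667021400633166672740063636135575777611030437707872077780177702307778217777021302104772788721088837884077463310888377807804078840633102104667726704006363613267088288240774778841087884012788205454406677066702177712400633177288288888477074301087808780772387803401021077087878731007778780301021057777780210054344266774774200636361340122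
    (bx 0 5500 0 2500 800 2500 3000 10000 (-10000) 10000) ≠ 0 := by
  decide +kernel

theorem chkC3 : go [disc, eL (k 6), tC3] k3 60
    0x666774222774774463772772477277247727724732222
    (bx 0 0 0 215 0 2500 5000 10000 (-10000) 10000) ≠ 0 := by
  decide +kernel

theorem chkA3 : go [disc, tA3] k3 60
    0x6
    (bx 0 3000 0 215 0 2500 5000 10000 (-10000) 10000) ≠ 0 := by
  decide +kernel

theorem chkB3 : go [tB3] k3 60
    0x5
    (bx 0 0 0 215 0 0 0 0 0 0) ≠ 0 := by
  decide +kernel

end Pool.Agent.MP_d3fa2a_an.Q4L
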