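import Pool.Agent.MP_d3fa2a_an.Q4L.Prog

/-! Kernel checks of the box inequalities. -/

namespace Pool.Agent.MP_d3fa2a_an.Q4L

open Ex

theorem chkFa : go [disc, tR, tS, psi v0 v1] kF 60
    0x888616160117718880186161606011888186161606011437781188884138882361616011288808616160118881861616011888616011438818884388261616011247718880821861616060117870888418812186161606011771888082186161606011437818883841861616060114778704178704848825388041777786011488831881241088808218814488284608604616160113888186061601188088186061601138883861616011447718708808848802318616161606011781888118616160601147784188170878170053880824188841486160846161601138880188808418836161601142378821888803188811288382616160118818881821882616160114788018808808284186084616160117870841870888018812188148608461616011388188184882616160114787018880388823881418838461616011781888018616160114232781881848606186146111788118881821881488260618614611137881188388388084318618604860618614361112781888318608486186043611188818838488346111222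
    (bx 4250 6350 2700 19100 0 2500 (-10000) 10000 (-10000) 10000) ≠ 0 := by
  decide +kernel

theorem chkFb : go [disc, tT, eL v0, psi v0 v1] kF 60
    0x78808818418818808808288601886012318808860188841861031418788884178084210173738818880823888236061118880828826061114031077878018780184788184840760111788172773721073300733788188088088818418606101888286061014188884847311880884884606111031077878884611010073348787808488141017373738881188088488288806013886008808486103411878878082188184410173880848808288148808288046061110318808880388881386061018881861014880780848606101878086061014311407881847808477808407760017780847601031877861001417788188188184611108878610114030737332788173887808211888821147888818411237310882882841888803188088806018808806014188800888217388160610188078084738606101431888018808808846011880848880841738826061013128882188088286108860141878082860610187808610143880848808488184388260610121410778084884847808477600178847601037786100411881780847808477600177861004112788478818846110887601141881878816107318876011412030737332880880821888008804888084173888308848882880413882606101088801738808883880418606101041888108880173880888382186061010881738888218606101041218808288088808804188488088060188086014101888088088610886104011212778082788182078084776076040188477607604012118818827808277607604760760420111278881876017387601411888760173876017341128887607604111888760760411122030737332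
    (bx 6350 15100 2700 19100 0 2500 (-10000) 10000 (-10000) 10000) ≠ 0 := by
  decide +kernel

end Pool.Agent.MP_d3fa2a_an.Q4L
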