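import Pool.Agent.MP_d3fa2a_an.Q4L.Prog

/-! The multipliers at the corner and their enclosures. -/

namespace Pool.Agent.MP_d3fa2a_an.Q4L

open Ex

noncomputable section

def U1 (f X Y : ℝ) : ℝ := 25 / 32 * (f * X) - 25 / 72 * (f * f * (X * X - Y * Y))
def V1 (f X Y : ℝ) : ℝ := 25 / 32 * (f * Y) + 25 / 36 * (f * f * (X * Y))
def M1 (f X Y : ℝ) : ℝ := 225 / 256 - 25 / 144 * (f * f * (X * X + Y * Y))
def U2 (f X Y : ℝ) : ℝ :=
  25 / 32 * ((f - 1) * X) + 25 / 72 * ((f - 1) * (f - 1) * (X * X - Y * Y))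
def V2 (f X Y : ℝ) : ℝ := 25 / 32 * ((f - 1) * Y) - 25 / 36 * ((f - 1) * (f - 1) * (X * Y))
def M2 (f X Y : ℝ) : ℝ := 225 / 256 - 25 / 144 * ((f - 1) * (f - 1) * (X * X + Y * Y))

/-- the golden ratio `f` and the corner `X + i Y` -/
structure Cor (f X Y : ℝ) : Prop where
  f0 : 1.618033988 ≤ f
  f1 : f ≤ 1.618033989
  X0 : 1.21354907 ≤ X
  X1 : X ≤ 1.21354909
  Y0 : 0.0214008 ≤ Y
  Y1 : Y ≤ 0.0214022
  c1 : U1 f X Y ^ 2 + V1 f X Y ^ 2 = M1 f X Y ^ 2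
  c2 : U2 f X Y ^ 2 + V2 f X Y ^ 2 = M2 f X Y ^ 2

def ratR (X Y : ℝ) : List ℝ := [X, Y, 1, 1 / 4, 1 / 10, 8 / 5, 8 / 3, 16 / 3, 1 / 3, 5 / 3, 1 / 2,
  15 / 16, 5 / 6, 5 / 12, 4 / 3, 36 / 5, 18 / 5, 131 / 50, 3 / 4, 81 / 100, 3, 2]

def kap (n0 n1 z1 z2 Z1 Z2 X Y : ℝ) : List ℝ := n0 :: n1 :: z1 :: z2 :: Z1 :: Z2 :: ratR X Y

def kapL (l f X Y : ℝ) : List ℝ :=
  kap (l * M1 f X Y + M2 f X Y) (l * (f * f * M1 f X Y) + (f - 1) * (f - 1) * M2 f X Y)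
    (l * (f * U1 f X Y) + (f - 1) * U2 f X Y) (l * (f * V1 f X Y) + (f - 1) * V2 f X Y)
    (l * (f * f * U1 f X Y) - (f - 1) * (f - 1) * U2 f X Y)
    (l * (f * f * V1 f X Y) - (f - 1) * (f - 1) * V2 f X Y) X Y

def kapF (f X Y : ℝ) : List ℝ :=
  kap 1 (f * f) (3 / 5 * f) (4 / 5 * f) (3 / 5 * (f * f)) (4 / 5 * (f * f)) X Y

end

variable {f X Y : ℝ}

lemma Cor.inX (h : Cor f X Y) : InI X ⟨1334311325678, 21990⟩ :=
  abs_le.2 ⟨by norm_num; linarith [h.X0], by norm_num; linarith [h.X1]⟩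

lemma Cor.inY (h : Cor f X Y) : InI Y ⟨23531197895, 1099511⟩ :=
  abs_le.2 ⟨by norm_num; linarith [h.Y0], by norm_num; linarith [h.Y1]⟩

lemma Cor.inf (h : Cor f X Y) : InI f ⟨1779047184767, 2000⟩ :=
  abs_le.2 ⟨by norm_num; linarith [h.f0], by norm_num; linarith [h.f1]⟩

lemma Cor.rat (h : Cor f X Y) : List.Forall₂ InI (ratR X Y) ratI := by
  unfold ratR ratI
  refine .cons h.inX (.cons h.inY ?_)
  repeat (first | exact .nil | refine .cons (by norm_num [InI, abs_le]) ?_)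

def qI : List Iv := [⟨858993459200, 1⟩, ⟨381774870755, 1⟩, ⟨763549741511, 1⟩, ⟨966367641600, 1⟩,
  ⟨190887435377, 1⟩, ⟨12094627905536, 1⟩, ⟨1099511627776, 1⟩, ⟨659706976665, 1⟩,
  ⟨879609302220, 1⟩, ⟨0, 0⟩]

noncomputable def qR : List ℝ :=
  [25 / 32, 25 / 72, 25 / 36, 225 / 256, 25 / 144, 11, 1, 3 / 5, 4 / 5, 0]

lemma q_in : List.Forall₂ InI qR qI := by
  unfold qR qI
  repeat (first | exact .nil | refine .cons (by norm_num [InI, abs_le]) ?_)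

def bC : Box := ⟨⟨1334311325678, 21990⟩, ⟨23531197895, 1099511⟩, ⟨1779047184767, 2000⟩,
  ⟨0, 0⟩, ⟨0, 0⟩⟩

def gg : Ex := sub v2 (k 6)
def xU1 : Ex := sub (cm 0 (mul v2 v0)) (cm 1 (mul (mul v2 v2) (sub (mul v0 v0) (mul v1 v1))))
def xV1 : Ex := add (cm 0 (mul v2 v1)) (cm 2 (mul (mul v2 v2) (mul v0 v1)))
def xM1 : Ex := sub (k 3) (cm 4 (mul (mul v2 v2) (add (mul v0 v0) (mul v1 v1))))
def xU2 : Ex := add (cm 0 (mul gg v0)) (cm 1 (mul (mul gg gg) (sub (mul v0 v0) (mul v1 v1))))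
def xV2 : Ex := sub (cm 0 (mul gg v1)) (cm 2 (mul (mul gg gg) (mul v0 v1)))
def xM2 : Ex := sub (k 3) (cm 4 (mul (mul gg gg) (add (mul v0 v0) (mul v1 v1))))

def xL (i : ℕ) : List Ex := [add (cm i xM1) xM2,
  add (cm i (mul (mul v2 v2) xM1)) (mul (mul gg gg) xM2), add (cm i (mul v2 xU1)) (mul gg xU2),
  add (cm i (mul v2 xV1)) (mul gg xV2), sub (cm i (mul (mul v2 v2) xU1)) (mul (mul gg gg) xU2),
  sub (cm i (mul (mul v2 v2) xV1)) (mul (mul gg gg) xV2)]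

def xF : List Ex := [k 6, mul v2 v2, cm 7 v2, cm 8 v2, cm 7 (mul v2 v2), cm 8 (mul v2 v2)]

def allIn : List Ex → List Iv → Bool
  | [], _ => true
  | _ :: _, [] => false
  | t :: T, I :: K => (t.iv bC qI).sub_iv I && allIn T K

lemma all_in (h : Cor f X Y) (T : List Ex) (K : List Iv) (hT : allIn T (K ++ ratI) = true)
    (hl : T.length = K.length) :
    List.Forall₂ InI (T.map (fun t => t.ev ⟨X, Y, f, 0, 0⟩ qR) ++ ratR X Y) (K ++ ratI) := by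
  have hB : InB ⟨X, Y, f, 0, 0⟩ bC := ⟨h.inX, h.inY, h.inf, by simp [InI, bC], by simp [InI, bC]⟩
  obtain ⟨n, hn⟩ := mem_iv hB q_in
  induction T generalizing K with
  | nil =>
    cases K with
    | nil => exact h.rat
    | cons _ _ => simp at hl
  | cons t T ih =>
    cases K with
    | nil => simp at hl
    | cons I K =>
      rw [List.cons_append, allIn, Bool.and_eq_true] at hT
      exact .cons ((hn t).inI hT.1) (ih K hT.2 (by simpa using hl))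

lemma Cor.inN (h : Cor f X Y) : List.Forall₂ InI (kapL 11 f X Y) kN :=
  all_in h (xL 5) (kN.take 6) (by decide +kernel) rfl

lemma Cor.in3 (h : Cor f X Y) : List.Forall₂ InI (kapL 0 f X Y) k3 :=
  all_in h (xL 9) (k3.take 6) (by decide +kernel) rfl

lemma Cor.inF (h : Cor f X Y) : List.Forall₂ InI (kapF f X Y) kF :=
  all_in h xF (kF.take 6) (by decide +kernel) rfl

lemma Cor.m1 (h : Cor f X Y) : 0 ≤ M1 f X Y := by
  have h1 : f * f ≤ 2.62 := by nlinarith [h.f0, h.f1]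
  have h2 : X * X + Y * Y ≤ 1.48 := by nlinarith [h.X0, h.X1, h.Y0, h.Y1]
  have h3 : f * f * (X * X + Y * Y) ≤ 2.62 * 1.48 :=
    mul_le_mul h1 h2 (by nlinarith) (by norm_num)
  unfold M1
  linarith

lemma Cor.m2 (h : Cor f X Y) : 0 ≤ M2 f X Y := by
  have h1 : (f - 1) * (f - 1) ≤ 2.62 := by nlinarith [h.f0, h.f1]
  have h2 : X * X + Y * Y ≤ 1.48 := by nlinarith [h.X0, h.X1, h.Y0, h.Y1]
  have h3 : (f - 1) * (f - 1) * (X * X + Y * Y) ≤ 2.62 * 1.48 :=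
    mul_le_mul h1 h2 (by nlinarith) (by norm_num)
  unfold M2
  linarith

end Pool.Agent.MP_d3fa2a_an.Q4L
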