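import Pool.Agent.MP_d3fa2a_an.Q4L.Cons
import Pool.Agent.MP_d3fa2a_an.Q4L.Chk1
import Pool.Agent.MP_d3fa2a_an.Q4L.Chk2

/-! The region lemma: the shifted second coefficient lies in a disc or in a trapezoid. -/

namespace Pool.Agent.MP_d3fa2a_an.Q4L

open Ex

noncomputable section

def rM (e : ℝ) : ℝ := 1 - (1 / 4 - e) ^ 2
def rD (e : ℝ) : ℝ := 1 / 3 - 16 / 3 * (1 / 4 - e) ^ 2
def rA1 (x e u : ℝ) : ℝ := (1 - 8 / 3 * (1 / 4 - e) ^ 2) * x - (1 / 4 - e) * rD e * u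
def rA2 (y e v : ℝ) : ℝ := (1 - 8 / 3 * (1 / 4 - e) ^ 2) * y + (1 / 4 - e) * rD e * v
def rB1 (x e u : ℝ) : ℝ := 5 / 3 * (1 / 4 - e) * x + rD e * u
def rB2 (y e v : ℝ) : ℝ := rD e * v - 5 / 3 * (1 / 4 - e) * y
def rP (x y e u v : ℝ) : ℝ := rB1 x e u * rA1 x e u + rB2 y e v * rA2 y e v
def rQ (x y e u v : ℝ) : ℝ := rB2 y e v * rA1 x e u - rB1 x e u * rA2 y e v
def rN (x y e u v : ℝ) : ℝ := rB1 x e u ^ 2 + rB2 y e v ^ 2
def rL (x e u : ℝ) : ℝ := u + 36 / 5 * ((1 / 4 - e) * u) - 18 / 5 * x + 131 / 50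

/-- the necessary conditions in real coordinates: `a = x + i y`, `c = 1 / 4 - e`, `B = u + i v` -/
structure Hyp (f x y e u v : ℝ) : Prop where
  e0 : 0 ≤ e
  e1 : e ≤ 1 / 4
  hd : u ^ 2 + v ^ 2 ≤ 1
  hL : 0 ≤ rL x e u
  hy : |y| ≤ 3 / 2
  n1 : 0 ≤ rM e ^ 2 - f ^ 2 * rN x y e u v
  w1 : (rM e * f * rA1 x e u - f ^ 2 * rP x y e u v) ^ 2 +
    (rM e * f * rA2 y e v - f ^ 2 * rQ x y e u v) ^ 2 ≤ (rM e ^ 2 - f ^ 2 * rN x y e u v) ^ 2
  n2 : 0 ≤ rM e ^ 2 - (f - 1) ^ 2 * rN x y e u v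
  w2 : (rM e * (f - 1) * rA1 x e u + (f - 1) ^ 2 * rP x y e u v) ^ 2 +
    (rM e * (f - 1) * rA2 y e v + (f - 1) ^ 2 * rQ x y e u v) ^ 2 ≤
      (rM e ^ 2 - (f - 1) ^ 2 * rN x y e u v) ^ 2

def Psi (n0 n1 z1 z2 Z1 Z2 x y e u v : ℝ) : ℝ :=
  n0 * rM e ^ 2 - n1 * rN x y e u v - rM e * (z1 * rA1 x e u + z2 * rA2 y e v) +
    Z1 * rP x y e u v + Z2 * rQ x y e u v

end

lemma cs {p q P Q m M : ℝ} (h : p ^ 2 + q ^ 2 ≤ m ^ 2) (H : P ^ 2 + Q ^ 2 = M ^ 2) (hm : 0 ≤ m)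
    (hM : 0 ≤ M) : P * p + Q * q ≤ M * m := by
  apply abs_le_of_sq_le_sq' _ (mul_nonneg hM hm) |>.2
  have h1 : (P * p + Q * q) ^ 2 ≤ (P ^ 2 + Q ^ 2) * (p ^ 2 + q ^ 2) := by
    nlinarith [sq_nonneg (P * q - Q * p)]
  rw [mul_pow, ← H]
  exact h1.trans (mul_le_mul_of_nonneg_left h (by positivity))

variable {f X Y x y e u v n0 n1 z1 z2 Z1 Z2 r t : ℝ}

lemma psiL_nonneg (hC : Cor f X Y) (h : Hyp f x y e u v) {l : ℝ} (hl : 0 ≤ l) :
    0 ≤ Psi (l * M1 f X Y + M2 f X Y) (l * (f * f * M1 f X Y) + (f - 1) * (f - 1) * M2 f X Y)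
      (l * (f * U1 f X Y) + (f - 1) * U2 f X Y) (l * (f * V1 f X Y) + (f - 1) * V2 f X Y)
      (l * (f * f * U1 f X Y) - (f - 1) * (f - 1) * U2 f X Y)
      (l * (f * f * V1 f X Y) - (f - 1) * (f - 1) * V2 f X Y) x y e u v := by
  have h1 := mul_nonneg hl (sub_nonneg.2 (cs h.w1 hC.c1 h.n1 hC.m1))
  have h2 := sub_nonneg.2 (cs h.w2 hC.c2 h.n2 hC.m2)
  unfold Psi
  linear_combination h1 + h2

lemma psiL_zero (hC : Cor f X Y) (l : ℝ) :
    Psi (l * M1 f X Y + M2 f X Y) (l * (f * f * M1 f X Y) + (f - 1) * (f - 1) * M2 f X Y)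
      (l * (f * U1 f X Y) + (f - 1) * U2 f X Y) (l * (f * V1 f X Y) + (f - 1) * V2 f X Y)
      (l * (f * f * U1 f X Y) - (f - 1) * (f - 1) * U2 f X Y)
      (l * (f * f * V1 f X Y) - (f - 1) * (f - 1) * V2 f X Y) X Y 0 0 0 = 0 := by
  have h1 := hC.c1
  have h2 := hC.c2
  have e1 : M1 f X Y = rM 0 ^ 2 - f ^ 2 * rN X Y 0 0 0 := by
    simp only [M1, rM, rN, rB1, rB2, rD]; ring
  have e2 : U1 f X Y = rM 0 * f * rA1 X 0 0 - f ^ 2 * rP X Y 0 0 0 := by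
    simp only [U1, rM, rP, rA1, rA2, rB1, rB2, rD]; ring
  have e3 : V1 f X Y = rM 0 * f * rA2 Y 0 0 - f ^ 2 * rQ X Y 0 0 0 := by
    simp only [V1, rM, rQ, rA1, rA2, rB1, rB2, rD]; ring
  have e4 : M2 f X Y = rM 0 ^ 2 - (f - 1) ^ 2 * rN X Y 0 0 0 := by
    simp only [M2, rM, rN, rB1, rB2, rD]; ring
  have e5 : U2 f X Y = rM 0 * (f - 1) * rA1 X 0 0 + (f - 1) ^ 2 * rP X Y 0 0 0 := by
    simp only [U2, rM, rP, rA1, rA2, rB1, rB2, rD]; ring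
  have e6 : V2 f X Y = rM 0 * (f - 1) * rA2 Y 0 0 + (f - 1) ^ 2 * rQ X Y 0 0 0 := by
    simp only [V2, rM, rQ, rA1, rA2, rB1, rB2, rD]; ring
  unfold Psi
  linear_combination (-l) * h1 - h2 - l * M1 f X Y * e1 + l * U1 f X Y * e2 + l * V1 f X Y * e3 -
    M2 f X Y * e4 + U2 f X Y * e5 + V2 f X Y * e6

lemma psiF_nonneg (h : Hyp f x y e u v) :
    0 ≤ Psi 1 (f * f) (3 / 5 * f) (4 / 5 * f) (3 / 5 * (f * f)) (4 / 5 * (f * f)) x y e u v := by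
  have h1 := sub_nonneg.2 (cs h.w1 (P := 3 / 5) (Q := 4 / 5) (M := 1) (by norm_num) h.n1 zero_le_one)
  unfold Psi
  linear_combination h1

lemma ev_psi (P : Pt) (p q : Ex) :
    (psi p q).ev P (kap n0 n1 z1 z2 Z1 Z2 X Y) = Psi n0 n1 z1 z2 Z1 Z2
      (p.ev P (kap n0 n1 z1 z2 Z1 Z2 X Y) + P.x2 / 10)
      (q.ev P (kap n0 n1 z1 z2 Z1 Z2 X Y) + 8 / 5 * (P.x2 * P.x4)) P.x2 P.x3 P.x4 := by
  simp only [psi, eM, eC2, eC, eA1, eA2, eB1, eB2, eZ1, eZ2, eMu, eNu, eKa, eD, eX, eY, Ex.ev,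
    Psi, rM, rN, rP, rQ, rA1, rA2, rB1, rB2, rD]
  generalize p.ev P _ = a
  generalize q.ev P _ = b
  simp only [kap, ratR, List.getD_cons_succ, List.getD_cons_zero]
  ring

lemma ev_L (P : Pt) (p : Ex) : (eL p).ev P (kap n0 n1 z1 z2 Z1 Z2 X Y) =
    rL (p.ev P (kap n0 n1 z1 z2 Z1 Z2 X Y) + P.x2 / 10) P.x2 P.x3 := by
  simp only [eL, eC, eX, Ex.ev, rL]
  generalize p.ev P _ = a
  simp only [kap, ratR, List.getD_cons_succ, List.getD_cons_zero]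
  ring

lemma ev_disc (P : Pt) : disc.ev P (kap n0 n1 z1 z2 Z1 Z2 X Y) = 1 - (P.x3 ^ 2 + P.x4 ^ 2) := by
  simp only [disc, Ex.ev, kap, ratR, List.getD_cons_succ, List.getD_cons_zero]
  ring

lemma idN : Psi n0 n1 z1 z2 Z1 Z2 (X - t + r + e / 10) (Y + t + 8 / 5 * (e * v)) e u v +
      3 / 4 * (e * rL (X - t + r + e / 10) e u) =
    r * tA.ev ⟨r, t, e, u, v⟩ (kap n0 n1 z1 z2 Z1 Z2 X Y) +
      t * tB.ev ⟨0, t, e, u, v⟩ (kap n0 n1 z1 z2 Z1 Z2 X Y) +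
      e * tC.ev ⟨0, 0, e, u, v⟩ (kap n0 n1 z1 z2 Z1 Z2 X Y) +
      Psi n0 n1 z1 z2 Z1 Z2 X Y 0 0 0 := by
  simp only [tA, tB, tC, dx, dy, de, eL, xm, ym, yp, eM, eC2, eC, eA1, eA2, eB1, eB2, eZ1, eZ2,
    eMu, eNu, eKa, eD, eX, eY, eM1, eH, eCH, eP, fA1, fA2, fB1, fB2, Ex.ev,
    Psi, rM, rN, rP, rQ, rA1, rA2, rB1, rB2, rD, rL, kap, ratR, List.getD_cons_succ,
    List.getD_cons_zero]
  ring

lemma id3 : Psi n0 n1 z1 z2 Z1 Z2 (X + r + e / 10) (Y - t + 8 / 5 * (e * v)) e u v +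
      1 / 2 * (e * rL (X + r + e / 10) e u) =
    r * tA3.ev ⟨r, t, e, u, v⟩ (kap n0 n1 z1 z2 Z1 Z2 X Y) +
      t * tB3.ev ⟨0, t, 0, 0, 0⟩ (kap n0 n1 z1 z2 Z1 Z2 X Y) +
      e * tC3.ev ⟨0, t, e, u, v⟩ (kap n0 n1 z1 z2 Z1 Z2 X Y) +
      Psi n0 n1 z1 z2 Z1 Z2 X Y 0 0 0 := by
  simp only [tA3, tB3, tC3, dx, dy, de, eL, yn, eM, eC2, eC, eA1, eA2, eB1, eB2, eZ1, eZ2,
    eMu, eNu, eKa, eD, eX, eY, eM1, eH, eCH, eP, fA1, fA2, fB1, fB2, Ex.ev,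
    Psi, rM, rN, rP, rQ, rA1, rA2, rB1, rB2, rD, rL, kap, ratR, List.getD_cons_succ,
    List.getD_cons_zero]
  ring

lemma in_bx {a b c d e' f' g h i j : ℤ} {p q r s t : ℝ} (h0 : a / 10000 ≤ p) (h1 : p ≤ b / 10000)
    (h2 : c / 10000 ≤ q) (h3 : q ≤ d / 10000) (h4 : e' / 10000 ≤ r) (h5 : r ≤ f' / 10000)
    (h6 : g / 10000 ≤ s) (h7 : s ≤ h / 10000) (h8 : i / 10000 ≤ t) (h9 : t ≤ j / 10000) :
    InB ⟨p, q, r, s, t⟩ (bx a b c d e' f' g h i j) :=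
  ⟨in_mil h0 h1, in_mil h2 h3, in_mil h4 h5, in_mil h6 h7, in_mil h8 h9⟩

lemma Hyp.u1 (h : Hyp f x y e u v) : |u| ≤ 1 := abs_le_one_iff_mul_self_le_one.2 (by
  nlinarith [h.hd])

lemma Hyp.v1 (h : Hyp f x y e u v) : |v| ≤ 1 := abs_le_one_iff_mul_self_le_one.2 (by
  nlinarith [h.hd])

lemma Hyp.x1 (h : Hyp f x y e u v) : x ≤ 1.506 := by
  have h1 := h.hL
  have h2 := abs_le.1 h.u1
  unfold rL at h1
  nlinarith [h.e0, h.e1]

lemma Hyp.ulow (h : Hyp f x y e u v) {s : ℝ} (hs : 0 ≤ s) (hx : 14 / 5 * s + 131 / 50 ≤ 18 / 5 * x) :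
    s ≤ u := by
  have h1 := h.hL
  unfold rL at h1
  by_contra h2
  push Not at h2
  nlinarith [h.e0, h.e1]

/-- near the corner, above it -/
lemma near (hC : Cor f X Y) (h : Hyp f (X - t + r + e / 10) (Y + t + 8 / 5 * (e * v)) e u v)
    (t0 : 0 ≤ t) (t1 : t ≤ 1 / 4) : r ≤ 0 := by
  by_contra r0
  push Not at r0
  have hu := abs_le.1 h.u1
  have hv := abs_le.1 h.v1
  have e0 := h.e0
  have e1 := h.e1
  have u0 : 3 / 10 ≤ u := h.ulow (by norm_num) (by linarith [hC.X0])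
  have r1 : r ≤ 0.55 := by linarith [h.x1, hC.X0]
  have hP := psiL_nonneg hC h (l := 11) (by norm_num)
  have hL := mul_nonneg e0 h.hL
  have hd := h.hd
  rcases le_total e (2 / 25) with e2 | e2
  · have hid := idN (n0 := 11 * M1 f X Y + M2 f X Y)
      (n1 := 11 * (f * f * M1 f X Y) + (f - 1) * (f - 1) * M2 f X Y)
      (z1 := 11 * (f * U1 f X Y) + (f - 1) * U2 f X Y) (z2 := 11 * (f * V1 f X Y) + (f - 1) * V2 f X Y)
      (Z1 := 11 * (f * f * U1 f X Y) - (f - 1) * (f - 1) * U2 f X Y)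
      (Z2 := 11 * (f * f * V1 f X Y) - (f - 1) * (f - 1) * V2 f X Y)
      (X := X) (Y := Y) (r := r) (t := t) (e := e) (u := u) (v := v)
    rw [psiL_zero hC 11] at hid
    obtain ⟨a, ha, ga⟩ := go_sound hC.inN (X := ⟨r, t, e, u, v⟩) _ _ _ chkA (by
      apply in_bx <;> push_cast <;> linarith)
    obtain ⟨b, hb, gb⟩ := go_sound hC.inN (X := ⟨0, t, e, u, v⟩) _ _ _ chkB (by
      apply in_bx <;> push_cast <;> linarith)
    obtain ⟨c, hc, gc⟩ := go_sound hC.inN (X := ⟨0, 0, e, u, v⟩) _ _ _ chkC (by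
      apply in_bx <;> push_cast <;> linarith)
    simp only [List.mem_cons, List.not_mem_nil, or_false] at ha hb hc
    unfold kapL at ga gb gc
    rcases ha with rfl | rfl
    · rw [ev_disc] at ga; linarith
    rcases hb with rfl | rfl
    · rw [ev_disc] at gb; linarith
    rcases hc with rfl | rfl
    · rw [ev_disc] at gc; linarith
    have g1 := mul_neg_of_pos_of_neg r0 ga
    have g2 := mul_nonpos_of_nonneg_of_nonpos t0 gb.le
    have g3 := mul_nonpos_of_nonneg_of_nonpos e0 gc.le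
    linarith
  · obtain ⟨a, ha, ga⟩ := go_sound hC.inN (X := ⟨r, t, e, u, v⟩) _ _ _ chkP (by
      apply in_bx <;> push_cast <;> linarith)
    simp only [List.mem_cons, List.not_mem_nil, or_false] at ha
    unfold kapL at ga
    rcases ha with rfl | rfl | rfl | rfl
    · rw [ev_disc] at ga; linarith
    · rw [ev_L] at ga; exact absurd h.hL (not_le.2 ga)
    · rw [tP, Ex.ev, ev_psi, Ex.ev, Ex.ev, ev_L] at ga
      have e3 : (kap (11 * M1 f X Y + M2 f X Y)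
        (11 * (f * f * M1 f X Y) + (f - 1) * (f - 1) * M2 f X Y)
        (11 * (f * U1 f X Y) + (f - 1) * U2 f X Y) (11 * (f * V1 f X Y) + (f - 1) * V2 f X Y)
        (11 * (f * f * U1 f X Y) - (f - 1) * (f - 1) * U2 f X Y)
        (11 * (f * f * V1 f X Y) - (f - 1) * (f - 1) * V2 f X Y) X Y).getD 24 0 = 3 / 4 := rfl
      rw [e3] at ga
      exact absurd (add_nonneg hP (mul_nonneg (by norm_num : (0 : ℝ) ≤ 3 / 4) hL)) (not_le.2 ga)
    · rw [ev_psi] at ga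
      exact absurd hP (not_le.2 ga)

/-- near the corner, below it -/
lemma below (hC : Cor f X Y) (h : Hyp f (X + r + e / 10) (Y - t + 8 / 5 * (e * v)) e u v)
    (t0 : 0 ≤ t) (t1 : t ≤ Y) : r ≤ 0 := by
  by_contra r0
  push Not at r0
  have hu := abs_le.1 h.u1
  have hv := abs_le.1 h.v1
  have e0 := h.e0
  have e1 := h.e1
  have u0 : 1 / 2 ≤ u := h.ulow (by norm_num) (by linarith [hC.X0])
  have r1 : r ≤ 0.3 := by linarith [h.x1, hC.X0]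
  have t2 := hC.Y1
  have hP := psiL_nonneg hC h (l := 0) le_rfl
  have hL := mul_nonneg e0 h.hL
  have hd := h.hd
  have hid := id3 (n0 := 0 * M1 f X Y + M2 f X Y)
    (n1 := 0 * (f * f * M1 f X Y) + (f - 1) * (f - 1) * M2 f X Y)
    (z1 := 0 * (f * U1 f X Y) + (f - 1) * U2 f X Y) (z2 := 0 * (f * V1 f X Y) + (f - 1) * V2 f X Y)
    (Z1 := 0 * (f * f * U1 f X Y) - (f - 1) * (f - 1) * U2 f X Y)
    (Z2 := 0 * (f * f * V1 f X Y) - (f - 1) * (f - 1) * V2 f X Y)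
    (X := X) (Y := Y) (r := r) (t := t) (e := e) (u := u) (v := v)
  rw [psiL_zero hC 0] at hid
  obtain ⟨a, ha, ga⟩ := go_sound hC.in3 (X := ⟨r, t, e, u, v⟩) _ _ _ chkA3 (by
    apply in_bx <;> push_cast <;> linarith)
  obtain ⟨b, hb, gb⟩ := go_sound hC.in3 (X := ⟨0, t, 0, 0, 0⟩) _ _ _ chkB3 (by
    apply in_bx <;> push_cast <;> linarith)
  obtain ⟨c, hc, gc⟩ := go_sound hC.in3 (X := ⟨0, t, e, u, v⟩) _ _ _ chkC3 (by
    apply in_bx <;> push_cast <;> linarith)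
  simp only [List.mem_cons, List.not_mem_nil, or_false] at ha hb hc
  unfold kapL at ga gb gc
  rcases ha with rfl | rfl
  · rw [ev_disc] at ga; linarith
  subst hb
  rcases hc with rfl | rfl | rfl
  · rw [ev_disc] at gc; linarith
  · rw [ev_L] at gc
    have g4 : rL (X + e / 10) e u < 0 := gc
    have g5 := h.hL
    unfold rL at g4 g5
    linarith
  have g1 := mul_neg_of_pos_of_neg r0 ga
  have g2 := mul_nonpos_of_nonneg_of_nonpos t0 gb.le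
  have g3 := mul_nonpos_of_nonneg_of_nonpos e0 gc.le
  linarith

theorem region (hC : Cor f X Y) (h : Hyp f (x + e / 10) (y + 8 / 5 * (e * v)) e u v)
    (hs : (y + 8 / 5 * (e * v)) ^ 2 ≤ 3 * (x + e / 10) ^ 2) (hx : 9 / 20 ≤ x + e / 10) (hy : 0 ≤ y) :
    x ^ 2 + y ^ 2 ≤ 81 / 100 ∨ (127 / 200 ≤ x ∧ x ≤ X ∧ x + y ≤ X + Y) := by
  have e0 := h.e0
  have e1 := h.e1
  have hu := abs_le.1 h.u1
  have hv := abs_le.1 h.v1
  have hY0 := hC.Y0
  have hY1 := hC.Y1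
  rcases le_total y (Y + 1 / 4) with y1 | y1
  · rcases le_total x (127 / 200) with x1 | x1
    · left
      nlinarith
    right
    rcases le_total y Y with y2 | y2
    · have := below hC (r := x - X) (t := Y - y) (by convert h using 2 <;> ring) (by linarith)
        (by linarith)
      exact ⟨x1, by linarith, by linarith⟩
    · have := near hC (r := x - X + (y - Y)) (t := y - Y) (by convert h using 2 <;> ring)
        (by linarith) (by linarith)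
      exact ⟨x1, by linarith, by linarith⟩
  have hP := psiF_nonneg h
  have hd := h.hd
  have y2 : y ≤ 1.91 := by nlinarith [(abs_le.1 h.hy).2]
  rcases le_total x (127 / 200) with x1 | x1
  · left
    obtain ⟨a, ha, ga⟩ := go_sound hC.inF (X := ⟨x, y, e, u, v⟩) _ _ _ chkFa (by
      apply in_bx <;> push_cast <;> linarith)
    simp only [List.mem_cons, List.not_mem_nil, or_false] at ha
    unfold kapF at ga
    rcases ha with rfl | rfl | rfl | rfl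
    · rw [ev_disc] at ga; linarith
    · have g : x * x + y * y - 81 / 100 < 0 := ga
      linarith
    · have g : 3 * ((x + 1 / 10 * e) * (x + 1 / 10 * e)) -
        (y + 8 / 5 * (e * v)) * (y + 8 / 5 * (e * v)) < 0 := ga
      linarith
    · rw [ev_psi] at ga
      exact absurd hP (not_le.2 ga)
  · right
    obtain ⟨a, ha, ga⟩ := go_sound hC.inF (X := ⟨x, y, e, u, v⟩) _ _ _ chkFb (by
      apply in_bx <;> push_cast <;> linarith [h.x1])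
    simp only [List.mem_cons, List.not_mem_nil, or_false] at ha
    unfold kapF at ga
    rcases ha with rfl | rfl | rfl | rfl
    · rw [ev_disc] at ga; linarith
    · have g : x + y - (X + Y) < 0 := ga
      exact ⟨x1, by linarith, by linarith⟩
    · rw [ev_L] at ga; exact absurd h.hL (not_le.2 ga)
    · rw [ev_psi] at ga
      exact absurd hP (not_le.2 ga)

end Pool.Agent.MP_d3fa2a_an.Q4L
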