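import Pool.Agent.Mg.Fd3fa2a.Gb8151a
import Pool.Agent.MP_d3fa2a_an.Q4L.Region

/-! Increasing convex order of functions on the circle, and quadratic polynomials that are
dominated by a trigonometric polynomial of degree two. -/

namespace Pool.Agent.MP_d3fa2a_an.Q4L

open Complex Metric Real Set ComplexConjugate

/-- the mean of the truncated power of `f` is at most `L` -/
def Dom (s L : ℝ) (f : ℂ → ℝ) : Prop := Continuous f ∧ avg (fun z => phi s (f z)) ≤ L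

variable {s L : ℝ} {f g : ℂ → ℝ}

lemma Dom.mono (hs : 1 ≤ s) (h : Dom s L f) (hg : Continuous g)
    (hle : ∀ z : ℂ, ‖z‖ = 1 → g z ≤ f z) : Dom s L g :=
  ⟨hg, (avg_mono ((phi_cont hs).comp hg).continuousOn ((phi_cont hs).comp h.1).continuousOn
    fun z hz => phi_mono hs (hle z hz)).trans h.2⟩

lemma Dom.conv (hs : 1 ≤ s) (hf : Dom s L f) (hg : Dom s L g) {t : ℝ} (h0 : 0 ≤ t) (h1 : t ≤ 1) :
    Dom s L (fun z => t * f z + (1 - t) * g z) := by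
  have c0 : Continuous (fun z => t * f z + (1 - t) * g z) :=
    (continuous_const.mul hf.1).add (continuous_const.mul hg.1)
  have c1 : Continuous (fun z => t * phi s (f z)) := continuous_const.mul ((phi_cont hs).comp hf.1)
  have c2 : Continuous (fun z => (1 - t) * phi s (g z)) :=
    continuous_const.mul ((phi_cont hs).comp hg.1)
  refine ⟨c0, (avg_mono ((phi_cont hs).comp c0).continuousOn (c1.add c2).continuousOn
    fun z _ => phi_conv hs h0 h1 _ _).trans ?_⟩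
  refine (avg_add c1.continuousOn c2.continuousOn).le.trans ?_
  rw [avg_mul, avg_mul]
  nlinarith [mul_le_mul_of_nonneg_left hf.2 h0, mul_le_mul_of_nonneg_left hg.2 (sub_nonneg.2 h1)]

lemma Dom.rot (h : Dom s L f) {u : ℂ} (hu : ‖u‖ = 1) : Dom s L (fun z => f (u * z)) :=
  ⟨h.1.comp (by fun_prop), (avg_rot (fun z => phi s (f z)) hu).le.trans h.2⟩

lemma avg_conj (f : ℂ → ℝ) : avg (fun z => f (conj z)) = avg f := by
  rw [avg_congr (g := fun z => f z⁻¹) fun z hz => by rw [inv_eq_conj hz]]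
  exact circleAverage_zero_one_congr_inv

lemma Dom.cj (h : Dom s L f) : Dom s L (fun z => f (conj z)) :=
  ⟨h.1.comp continuous_conj, (avg_conj (fun z => phi s (f z))).le.trans h.2⟩

section disc

variable {P : ℂ → ℂ → Prop}
  (hc : ∀ t : ℝ, 0 ≤ t → t ≤ 1 → ∀ x₁ x₂ y₁ y₂ : ℂ, P x₁ x₂ → P y₁ y₂ →
    P (t * x₁ + (1 - t) * y₁) (t * x₂ + (1 - t) * y₂))
  (hu : ∀ u : ℂ, ‖u‖ = 1 → P u (u ^ 2))

include hc hu

lemma chord {m d : ℂ} (hm : ‖m‖ ≤ 1) (hd : ‖d‖ = 1) :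
    P m (m ^ 2 + ((1 - ‖m‖ ^ 2 : ℝ) : ℂ) * d ^ 2) := by
  rcases eq_or_lt_of_le hm with h1 | h1
  · rw [h1]
    simpa using hu m h1
  set ρ := 1 - ‖m‖ ^ 2 with hρ
  have hρ0 : 0 < ρ := by nlinarith [norm_nonneg m]
  set β := m.re * d.re + m.im * d.im with hβ
  set γ := √(β ^ 2 + ρ) with hγ
  have hγ2 : γ ^ 2 = β ^ 2 + ρ := Real.sq_sqrt (by positivity)
  have hγ0 : 0 < γ := Real.sqrt_pos.2 (by positivity)
  have hb1 : 0 ≤ γ - β := by nlinarith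
  have hb2 : 0 ≤ γ + β := by nlinarith
  have hd2 : d.re * d.re + d.im * d.im = 1 := by
    have := Complex.sq_norm d
    rw [hd, normSq_apply] at this
    linarith
  have hm2 : m.re * m.re + m.im * m.im = 1 - ρ := by
    rw [hρ, Complex.sq_norm, normSq_apply]; ring
  have n1 : ‖m + ((γ - β : ℝ) : ℂ) * d‖ = 1 := by
    have : ‖m + ((γ - β : ℝ) : ℂ) * d‖ ^ 2 = 1 := by
      rw [Complex.sq_norm, normSq_apply]
      simp only [add_re, add_im, re_ofReal_mul, im_ofReal_mul]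
      linear_combination hm2 + (γ - β) ^ 2 * hd2 + hγ2 - 2 * (γ - β) * hβ
    nlinarith [norm_nonneg (m + ((γ - β : ℝ) : ℂ) * d)]
  have n2 : ‖m - ((γ + β : ℝ) : ℂ) * d‖ = 1 := by
    have : ‖m - ((γ + β : ℝ) : ℂ) * d‖ ^ 2 = 1 := by
      rw [Complex.sq_norm, normSq_apply]
      simp only [sub_re, sub_im, re_ofReal_mul, im_ofReal_mul]
      linear_combination hm2 + (γ + β) ^ 2 * hd2 + hγ2 + 2 * (γ + β) * hβ
    nlinarith [norm_nonneg (m - ((γ + β : ℝ) : ℂ) * d)]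
  have ht0 : 0 ≤ (γ + β) / (2 * γ) := by positivity
  have ht1 : (γ + β) / (2 * γ) ≤ 1 := by rw [div_le_one (by positivity)]; linarith
  have h := hc _ ht0 ht1 _ _ _ _ (hu _ n1) (hu _ n2)
  have hγc : (γ : ℂ) ≠ 0 := by exact_mod_cast hγ0.ne'
  have hγ2c : (γ : ℂ) ^ 2 = β ^ 2 + ρ := by exact_mod_cast hγ2
  convert h using 1
  · push_cast; field_simp; ring
  · push_cast; field_simp
    linear_combination (-2 * γ * d ^ 2) * hγ2c

lemma in_disc {m y : ℂ} (hm : ‖m‖ ≤ 1) (hy : ‖y‖ ≤ 1 - ‖m‖ ^ 2) : P m (m ^ 2 + y) := by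
  set d : ℂ := cexp (((arg y / 2 : ℝ) : ℂ) * I) with hd
  have hd1 : ‖d‖ = 1 := by rw [hd, Complex.norm_exp_ofReal_mul_I]
  have hd2 : y = ‖y‖ * d ^ 2 := by
    rw [hd, ← Complex.exp_nat_mul]
    conv_lhs => rw [← norm_mul_exp_arg_mul_I y]
    congr 2
    push_cast; ring
  have h1 := chord hc hu hm hd1
  have h2 := chord hc hu hm (d := I * d) (by simp [hd1])
  set ρ := 1 - ‖m‖ ^ 2 with hρ
  have hρ0 : 0 ≤ ρ := (norm_nonneg _).trans hy
  rcases eq_or_lt_of_le hρ0 with h0 | h0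
  · have : y = 0 := by
      rw [← norm_le_zero_iff]; linarith
    rw [← h0] at h1
    simpa [this] using h1
  have ht0 : 0 ≤ (ρ + ‖y‖) / (2 * ρ) := by positivity
  have ht1 : (ρ + ‖y‖) / (2 * ρ) ≤ 1 := by rw [div_le_one (by positivity)]; linarith
  have h := hc _ ht0 ht1 _ _ _ _ h1 h2
  have hρc : (ρ : ℂ) ≠ 0 := by exact_mod_cast h0.ne'
  have e1 : (((ρ + ‖y‖) / (2 * ρ) : ℝ) : ℂ) * m + (1 - (((ρ + ‖y‖) / (2 * ρ) : ℝ) : ℂ)) * m = m := by
    ring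
  have e2 : (((ρ + ‖y‖) / (2 * ρ) : ℝ) : ℂ) * (m ^ 2 + (ρ : ℂ) * d ^ 2) +
      (1 - (((ρ + ‖y‖) / (2 * ρ) : ℝ) : ℂ)) * (m ^ 2 + (ρ : ℂ) * (I * d) ^ 2) = m ^ 2 + y := by
    rw [mul_pow, I_sq]
    conv_rhs => rw [hd2]
    push_cast; field_simp; ring
  rwa [e1, e2] at h

end disc

/-- the base trigonometric polynomial with prescribed moments -/
noncomputable def T2 (c₁ c₂ z : ℂ) : ℝ := 301 / 100 + 2 * (223 / 100 * c₁ * z + 39 / 50 * c₂ * z ^ 2).re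

lemma T2_cont (c₁ c₂ : ℂ) : Continuous (T2 c₁ c₂) := by unfold T2; fun_prop

lemma T2_disc (hs : 1 ≤ s) (h : Dom s L (T2 1 1)) {m y : ℂ} (hm : ‖m‖ ≤ 1) (hy : ‖y‖ ≤ 1 - ‖m‖ ^ 2) :
    Dom s L (T2 m (m ^ 2 + y)) := by
  refine in_disc (P := fun a b => Dom s L (T2 a b)) ?_ ?_ hm hy
  · intro t h0 h1 x₁ x₂ y₁ y₂ hx hy
    refine (hx.conv hs hy h0 h1).mono hs (T2_cont _ _) fun z _ => le_of_eq ?_
    unfold T2
    have e : 223 / 100 * (t * x₁ + (1 - t) * y₁) * z + 39 / 50 * (t * x₂ + (1 - t) * y₂) * z ^ 2 =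
        (t : ℂ) * (223 / 100 * x₁ * z + 39 / 50 * x₂ * z ^ 2) +
        ((1 - t : ℝ) : ℂ) * (223 / 100 * y₁ * z + 39 / 50 * y₂ * z ^ 2) := by push_cast; ring
    rw [e, add_re, re_ofReal_mul, re_ofReal_mul]
    ring
  · intro u hu
    refine (h.rot hu).mono hs (T2_cont _ _) fun z _ => le_of_eq ?_
    unfold T2
    congr 3
    ring

lemma moments {α b : ℂ} {k : ℝ} (h1 : ‖α‖ ^ 2 * ((1 + ‖b‖) * (1 + ‖b‖)) - 1 < 0)
    (h2 : ∀ ε : ℝ, |ε| ≤ 1 → k * k * (‖b‖ * ‖b‖) - 1 + ‖α‖ ^ 2 * (2 * (1 + ‖b‖ * ‖b‖) -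
      4 * (k * (‖b‖ * ‖b‖)) + ε * ‖b‖ * (4 - 2 * (k * (1 + ‖b‖ * ‖b‖)))) < 0) :
    ‖α + conj α * b‖ ≤ 1 ∧ ‖k * b - (α + conj α * b) ^ 2‖ ≤ 1 - ‖α + conj α * b‖ ^ 2 := by
  obtain ⟨p, hp⟩ : ∃ p : ℝ, p = (α ^ 2 * conj b).re := ⟨_, rfl⟩
  have p1 : |p| ≤ ‖α‖ ^ 2 * ‖b‖ := by
    rw [hp, ← norm_pow, ← norm_conj b, ← norm_mul]
    exact Complex.abs_re_le_norm _
  have e1 : ‖α + conj α * b‖ ^ 2 = ‖α‖ ^ 2 * (1 + ‖b‖ ^ 2) + 2 * p := by
    rw [hp, Complex.sq_norm, Complex.sq_norm, Complex.sq_norm]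
    simp only [normSq_apply, pow_two, add_re, add_im, mul_re, mul_im, conj_re, conj_im]
    ring
  have e2 : ‖k * b - (α + conj α * b) ^ 2‖ ^ 2 = k ^ 2 * ‖b‖ ^ 2 -
      2 * k * ((1 + ‖b‖ ^ 2) * p + 2 * ‖α‖ ^ 2 * ‖b‖ ^ 2) + (‖α‖ ^ 2 * (1 + ‖b‖ ^ 2) + 2 * p) ^ 2 := by
    rw [hp, Complex.sq_norm, Complex.sq_norm, Complex.sq_norm]
    simp only [normSq_apply, pow_two, add_re, add_im, sub_re, sub_im, mul_re, mul_im, conj_re,
      conj_im, ofReal_re, ofReal_im]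
    ring
  have p2 := abs_le.1 p1
  have g1 : ‖α + conj α * b‖ ^ 2 ≤ 1 := by rw [e1]; nlinarith
  refine ⟨by nlinarith [norm_nonneg (α + conj α * b)], ?_⟩
  apply abs_le_of_sq_le_sq' _ (by linarith) |>.2
  rw [e2, e1]
  have k1 := h2 1 (by simp)
  have k2 := h2 (-1) (by simp)
  rcases le_total 0 (4 - 2 * (k * (1 + ‖b‖ * ‖b‖))) with h | h
  · nlinarith [mul_le_mul_of_nonneg_right p2.2 h]
  · nlinarith [mul_le_mul_of_nonpos_right p2.1 h]

open Ex in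
def tK : Ex := add (sub (mul (mul v2 v2) (mul v1 v1)) (k 0))
  (mul v0 (add (sub (cm 1 (add (k 0) (mul v1 v1))) (cm 2 (mul v2 (mul v1 v1))))
    (mul (mul v3 v1) (sub (k 2) (cm 1 (mul v2 (add (k 0) (mul v1 v1))))))))

open Ex in
def tW : Ex := sub (sub (k 3) v0) (cm 4 (mul v1 v1))

open Ex in
def tH : Ex := sub (mul v0 (mul (add (k 0) v1) (add (k 0) v1))) (k 0)

def zI : List Iv := [⟨1099511627776, 1⟩, ⟨2199023255552, 1⟩, ⟨4398046511104, 1⟩,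
  ⟨426414793245, 1⟩, ⟨185724580693, 1⟩]

noncomputable def zR : List ℝ := [1, 2, 4, 19286 / 49729, 8400 / 49729]

lemma z_in : List.Forall₂ InI zR zI := by
  unfold zR zI
  repeat (first | exact .nil | refine .cons (by norm_num [InI, abs_le]) ?_)

theorem chkZ1 : go [tK, tW] zI 60
    0x66505355053106503553050655106503505015535050513650536505315053650505153515315053501550535135505305505051535150531550511
    (bx 0 3533 0 6834 12820 12821 (-10000) 10000 0 0) ≠ 0 := by decide +kernel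

theorem chkZ2 : go [tH, tW] zI 60 0x650505150515051515151 (bx 0 3533 0 6834 0 0 0 0 0 0) ≠ 0 := by
  decide +kernel

theorem chkZ3 : go [tK] zI 60 0x55155135151
    (bx 0 2218 0 6040 14957 14958 (-10000) 10000 0 0) ≠ 0 := by decide +kernel

/-- squared modulus of a cubic -/
noncomputable def G (a b c z : ℂ) : ℝ := ‖1 + a * z + b * z ^ 2 + c * z ^ 3‖ ^ 2

lemma G_cont (a b c : ℂ) : Continuous (G a b c) := by unfold G; fun_prop

lemma G_eq (a b c : ℂ) {z : ℂ} (hz : ‖z‖ = 1) : G a b c z = 1 + ‖a‖ ^ 2 + ‖b‖ ^ 2 + ‖c‖ ^ 2 +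
    2 * ((a + conj a * b + conj b * c) * z + (b + conj a * c) * z ^ 2 + c * z ^ 3).re := by
  have h1 : z * conj z = 1 := by rw [mul_conj', hz]; simp
  apply Complex.ofReal_injective
  unfold G
  push_cast
  rw [re_eq_add_conj, ← mul_conj', ← mul_conj', ← mul_conj', ← mul_conj']
  simp only [map_add, map_mul, map_pow, map_one, conj_conj]
  linear_combination (a * conj a + b * conj b * (z * conj z + 1) +
    c * conj c * ((z * conj z) ^ 2 + z * conj z + 1) + a * conj b * conj z + conj a * b * z +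
    a * conj c * conj z ^ 2 + conj a * c * z ^ 2 +
    (b * conj c * conj z + conj b * c * z) * (z * conj z + 1)) * h1

lemma domZ (hs : 1 ≤ s) (h : Dom s L (T2 1 1)) {a b : ℂ} (h1 : ‖a‖ ^ 2 ≤ 1.7567)
    (h2 : ‖b‖ ^ 2 ≤ 0.46695) (h3 : ‖a‖ ^ 2 + 0.84 * ‖b‖ ^ 2 ≤ 1.9286) : Dom s L (G a b 0) := by
  set α : ℂ := ((100 / 223 : ℝ) : ℂ) * a with hα
  have nα : ‖α‖ ^ 2 = 10000 / 49729 * ‖a‖ ^ 2 := by
    rw [hα, norm_mul, Complex.norm_real, Real.norm_of_nonneg (by norm_num)]; ring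
  have b0 := norm_nonneg b
  have b1 : ‖b‖ ≤ 0.6834 := by nlinarith
  have a0 : 0 ≤ ‖a‖ ^ 2 := by positivity
  obtain ⟨g1, g2⟩ := moments (α := α) (b := b) (k := 50 / 39) (by
    obtain ⟨t, ht, gt⟩ := go_sound z_in (X := ⟨‖α‖ ^ 2, ‖b‖, 0, 0, 0⟩) _ _ _ chkZ2 (by
      apply in_bx <;> push_cast <;> linarith)
    simp only [List.mem_cons, List.not_mem_nil, or_false] at ht
    rcases ht with rfl | rfl
    · exact gt
    · have : 19286 / 49729 - ‖α‖ ^ 2 - 8400 / 49729 * (‖b‖ * ‖b‖) < 0 := gt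
      linarith) (by
    intro ε hε
    obtain ⟨t, ht, gt⟩ := go_sound z_in (X := ⟨‖α‖ ^ 2, ‖b‖, 50 / 39, ε, 0⟩) _ _ _ chkZ1 (by
      apply in_bx <;> push_cast <;> linarith [abs_le.1 hε])
    simp only [List.mem_cons, List.not_mem_nil, or_false] at ht
    rcases ht with rfl | rfl
    · exact gt
    · have : 19286 / 49729 - ‖α‖ ^ 2 - 8400 / 49729 * (‖b‖ * ‖b‖) < 0 := gt
      linarith)
  refine (T2_disc hs h g1 g2).mono hs (G_cont _ _ _) fun z hz => ?_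
  rw [G_eq _ _ _ hz]
  unfold T2
  have e : 223 / 100 * (α + conj α * b) * z + 39 / 50 * ((α + conj α * b) ^ 2 +
      (((50 / 39 : ℝ) : ℂ) * b - (α + conj α * b) ^ 2)) * z ^ 2 =
      (a + conj a * b + conj b * 0) * z + (b + conj a * 0) * z ^ 2 + 0 * z ^ 3 := by
    rw [hα, map_mul, conj_ofReal]; push_cast; ring
  rw [e, norm_zero]
  linarith

lemma domS (hs : 1 ≤ s) (h : Dom s L (T2 1 1)) {a b c : ℂ} (h1 : ‖a‖ ^ 2 ≤ 81 / 100)
    (h2 : ‖b‖ ≤ 0.604) (h3 : ‖c‖ ≤ 1 / 4) : Dom s L (G a b c) := by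
  set α : ℂ := ((350 / 669 : ℝ) : ℂ) * a with hα
  have nα : ‖α‖ ^ 2 = (350 / 669) ^ 2 * ‖a‖ ^ 2 := by
    rw [hα, norm_mul, Complex.norm_real, Real.norm_of_nonneg (by norm_num)]; ring
  have b0 := norm_nonneg b
  have a0 : 0 ≤ ‖a‖ ^ 2 := by positivity
  obtain ⟨g1, g2⟩ := moments (α := α) (b := b) (k := 175 / 117) (by
    have : (1 + ‖b‖) * (1 + ‖b‖) ≤ 3 := by nlinarith
    nlinarith) (by
    intro ε hε
    obtain ⟨t, ht, gt⟩ := go_sound z_in (X := ⟨‖α‖ ^ 2, ‖b‖, 175 / 117, ε, 0⟩) _ _ _ chkZ3 (by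
      apply in_bx <;> push_cast <;> linarith [abs_le.1 hε])
    simp only [List.mem_cons, List.not_mem_nil, or_false] at ht
    subst ht
    exact gt)
  refine (T2_disc hs h g1 g2).mono hs (G_cont _ _ _) fun z hz => ?_
  have k1 : G a b c z ≤ 7 / 6 * G a b 0 z + 7 / 16 := by
    unfold G
    rw [zero_mul, add_zero]
    have k2 := norm_add_le (1 + a * z + b * z ^ 2) (c * z ^ 3)
    rw [norm_mul c, norm_pow, hz, one_pow, mul_one] at k2
    have k3 := pow_le_pow_left₀ (norm_nonneg _) (k2.trans (add_le_add_right h3 _)) 2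
    nlinarith [sq_nonneg (‖1 + a * z + b * z ^ 2‖ - 3 / 2)]
  rw [G_eq a b 0 hz] at k1
  unfold T2
  have e : 223 / 100 * (α + conj α * b) * z + 39 / 50 * ((α + conj α * b) ^ 2 +
      (((175 / 117 : ℝ) : ℂ) * b - (α + conj α * b) ^ 2)) * z ^ 2 = ((7 / 6 : ℝ) : ℂ) *
      ((a + conj a * b + conj b * 0) * z + (b + conj a * 0) * z ^ 2 + 0 * z ^ 3) := by
    rw [hα, map_mul, conj_ofReal]; push_cast; ring
  rw [e, re_ofReal_mul]
  rw [norm_zero] at k1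
  nlinarith

end Pool.Agent.MP_d3fa2a_an.Q4L
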