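import Pool.Agent.MP_d3fa2a_an.Q4L.Large

/-! The value of `M_{4,q}` for `q ≥ 2`. -/

namespace Pool.Agent.MP_d3fa2a_an.Q4L

open Complex Metric Real Set ComplexConjugate

lemma int_eq (a b c : ℂ) (s : ℝ) :
    ∫ t in (0 : ℝ)..2 * π, ‖(fun z : ℂ => z + a * z ^ 2 + b * z ^ 3 + c * z ^ 4) (cexp (t * I))‖ ^ (2 * s) =
      2 * π * avg (fun z => phi s (G a b c z)) := by
  rw [integral_eq_avg (fun z => ‖z + a * z ^ 2 + b * z ^ 3 + c * z ^ 4‖ ^ (2 * s))]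
  congr 1
  apply avg_congr
  intro z hz
  have : z + a * z ^ 2 + b * z ^ 3 + c * z ^ 4 = z * (1 + a * z + b * z ^ 2 + c * z ^ 3) := by ring
  rw [this, norm_mul, hz, one_mul, rpow_eq_phi, G]

theorem quartic_large {q : ℝ} (hq : 2 ≤ q) {A : ℂ} (hR : ‖A‖ ^ 2 = 27 / 16 * (√15 - 3))
    (hT : (A ^ 3).re = 729 / 512 * (9 - 2 * √15)) {a b c : ℂ}
    (hi : InjOn (fun z : ℂ => z + a * z ^ 2 + b * z ^ 3 + c * z ^ 4) (ball 0 1)) :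
    ∫ t in (0 : ℝ)..2 * π, ‖(fun z : ℂ => z + a * z ^ 2 + b * z ^ 3 + c * z ^ 4) (cexp (t * I))‖ ^ q ≤
      ∫ t in (0 : ℝ)..2 * π, ‖(fun z : ℂ => z + A * z ^ 2 + 2 / 3 * conj A * z ^ 3 + 1 / 4 * z ^ 4)
        (cexp (t * I))‖ ^ q := by
  obtain ⟨s, rfl⟩ : ∃ s, q = 2 * s := ⟨q / 2, by ring⟩
  rw [int_eq, int_eq]
  exact mul_le_mul_of_nonneg_left
    (large4 (by linarith) hR hT ⟨G_cont _ _ _, le_rfl⟩ hi).2 (by positivity)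

end Pool.Agent.MP_d3fa2a_an.Q4L
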