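import Pool.Agent.MP_d3fa2a_an.Q4L.Schur

/-! The extremal quartic is injective on the disc. -/

namespace Pool.Agent.MP_d3fa2a_an.Q4L

open Complex Metric Set ComplexConjugate Filter Topology

lemma mob {F G γ : ℂ} (h : ‖G‖ ≤ ‖F‖) (hγ : ‖γ‖ ≤ 1) : ‖G + conj γ * F‖ ≤ ‖F + γ * G‖ := by
  apply abs_le_of_sq_le_sq' _ (norm_nonneg _) |>.2
  have h1 : ‖γ‖ ^ 2 ≤ 1 := by nlinarith [norm_nonneg γ]
  have h2 : ‖G‖ ^ 2 ≤ ‖F‖ ^ 2 := pow_le_pow_left₀ (norm_nonneg _) h 2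
  rw [Complex.sq_norm, normSq_apply] at h1
  rw [Complex.sq_norm, Complex.sq_norm, normSq_apply, normSq_apply] at h2
  rw [Complex.sq_norm, Complex.sq_norm]
  simp only [normSq_apply, add_re, add_im, mul_re, mul_im, conj_re, conj_im]
  nlinarith [mul_nonneg (sub_nonneg.2 h1) (sub_nonneg.2 h2)]

lemma step {F G γ z : ℂ} (h : ‖G‖ ≤ ‖F‖) (hF : F ≠ 0) (hγ : ‖γ‖ ≤ 1) (hz : ‖z‖ < 1) :
    F + γ * (z * G) ≠ 0 := by
  intro e
  have e1 : F = -(γ * (z * G)) := by linear_combination e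
  have e2 := congrArg norm e1
  rw [norm_neg, norm_mul, norm_mul] at e2
  have h0 := norm_pos_iff.2 hF
  have h1 : ‖z‖ * ‖G‖ ≤ ‖z‖ * ‖F‖ := by gcongr
  have h2 : ‖z‖ * ‖F‖ < ‖F‖ := by nlinarith
  nlinarith [norm_nonneg γ, mul_nonneg (norm_nonneg z) (norm_nonneg G)]

lemma suff {A B γ z : ℂ} (hB : ‖B‖ < 1) (hA : ‖A - B * conj A‖ ≤ 1 - ‖B‖ ^ 2) (hγ : ‖γ‖ ≤ 1)
    (hz : ‖z‖ < 1) : 1 + (A + γ * conj B) * z + (B + γ * conj A) * z ^ 2 + γ * z ^ 3 ≠ 0 := by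
  set q : ℝ := 1 - ‖B‖ ^ 2 with hq
  have q0 : 0 < q := by nlinarith [norm_nonneg B]
  have qc : (q : ℂ) ≠ 0 := by exact_mod_cast q0.ne'
  have qe : (q : ℂ) = 1 - B * conj B := by rw [hq, mul_conj']; push_cast; ring
  set s : ℂ := (A - B * conj A) / q with hs
  have s1 : ‖s‖ ≤ 1 := by
    rw [hs, norm_div, Complex.norm_real, Real.norm_of_nonneg q0.le, div_le_one q0]
    exact hA
  have cs : conj s = (conj A - conj B * A) / q := by rw [hs]; simp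
  have eA : A = s + B * conj s := by
    rw [cs, hs]; field_simp; rw [qe]; ring
  have eA' : conj A = conj s + conj B * s := by
    rw [cs, hs]; field_simp; rw [qe]; ring
  have h0 : (1 : ℂ) + s * z ≠ 0 := by
    have := step (F := 1) (G := 1) le_rfl one_ne_zero s1 hz
    rwa [mul_one] at this
  have h1 := blas s1 hz.le
  have h2 := step h1 h0 hB.le hz
  have h3 : ‖z * (z + conj s)‖ ≤ ‖1 + s * z‖ := by
    rw [norm_mul]
    nlinarith [norm_nonneg z, norm_nonneg (z + conj s)]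
  have h4 := step (mob h3 hB.le) h2 hγ hz
  intro e
  apply h4
  linear_combination e - z * eA - γ * z ^ 2 * eA'

lemma inj_of {p : ℂ → ℂ} {F : ℂ → ℂ → ℂ} (hp : Differentiable ℂ p)
    (hF : Continuous fun w : ℂ × ℂ => F w.1 w.2) (e : ∀ x y, p x - p y = (x - y) * F x y)
    (sym : ∀ x y, F x y = F y x) (H : ∀ x y, ‖x‖ = ‖y‖ → ‖y‖ < 1 → F x y ≠ 0) :
    InjOn p (ball 0 1) := by
  have hopen : IsOpenMap p := by
    refine (AnalyticOnNhd.is_constant_or_isOpenMap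
      (fun z _ => hp.analyticAt z)).resolve_left ?_
    rintro ⟨w, hw⟩
    have h1 := e (1 / 2) (-(1 / 2))
    rw [hw, hw, sub_self] at h1
    refine H (1 / 2) (-(1 / 2)) (by simp) (by norm_num) ?_
    linear_combination -h1
  intro x hx y hy hxy
  by_contra hne
  rw [mem_ball_zero_iff] at hx hy
  set ρ := max ‖x‖ ‖y‖ with hρ
  have ρ1 : ρ < 1 := max_lt hx hy
  set K : Set (ℂ × ℂ) := (closedBall 0 ρ ×ˢ closedBall 0 ρ) ∩ {w | F w.1 w.2 = 0} with hK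
  have Kc : IsCompact K := ((isCompact_closedBall _ _).prod (isCompact_closedBall _ _)).inter_right
    (isClosed_eq hF continuous_const)
  have Fz : ∀ u v, u ≠ v → p u = p v → F u v = 0 := by
    intro u v h1 h2
    have := e u v
    rw [h2, sub_self] at this
    exact (mul_eq_zero.1 this.symm).resolve_left (sub_ne_zero.2 h1)
  have Kn : K.Nonempty := ⟨(x, y), ⟨by simp [hρ], by simp [hρ]⟩, Fz x y hne hxy⟩
  obtain ⟨w, hw, hmin⟩ := Kc.exists_isMinOn Kn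
    (f := fun w : ℂ × ℂ => max ‖w.1‖ ‖w.2‖) (by fun_prop)
  have key : ∀ u v : ℂ, ‖u‖ < ‖v‖ → ‖v‖ ≤ ρ → F u v = 0 → max ‖w.1‖ ‖w.2‖ < ‖v‖ := by
    intro u v huv hv h0
    have puv : p u = p v := by
      have := e u v
      rw [h0, mul_zero] at this
      exact sub_eq_zero.1 this
    set σ := (‖u‖ + ‖v‖) / 2 with hσ
    have ho : IsOpen (p '' ball 0 σ) := hopen _ isOpen_ball
    have hm : p v ∈ p '' ball 0 σ := ⟨u, by rw [mem_ball_zero_iff]; linarith, puv⟩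
    have c1 : Continuous fun t : ℝ => p (t * v) := hp.continuous.comp (by fun_prop)
    have ev1 : ∀ᶠ t : ℝ in 𝓝 1, p (t * v) ∈ p '' ball 0 σ :=
      c1.continuousAt.eventually (ho.mem_nhds (by simpa using hm))
    have ev2 : ∀ᶠ t : ℝ in 𝓝 1, σ < t * ‖v‖ :=
      (continuous_const.continuousAt).eventually_lt (by fun_prop) (by simp; linarith)
    obtain ⟨t, ⟨⟨u', hu', e'⟩, t2⟩, t1⟩ :=
      (((ev1.and ev2).filter_mono nhdsWithin_le_nhds).and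
        (self_mem_nhdsWithin (s := Iio (1 : ℝ)) (a := 1))).exists
    rw [mem_ball_zero_iff] at hu'
    have v0 : 0 < ‖v‖ := (norm_nonneg u).trans_lt huv
    have t0 : 0 < t := by
      by_contra h
      nlinarith [norm_nonneg u]
    have nt : ‖(t : ℂ) * v‖ = t * ‖v‖ := by
      rw [norm_mul, Complex.norm_real, Real.norm_of_nonneg t0.le]
    have t3 : t * ‖v‖ < ‖v‖ := by nlinarith [(t1 : t < 1)]
    have hne' : u' ≠ t * v := by
      intro h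
      rw [h, nt] at hu'
      linarith
    have mem : (u', (t : ℂ) * v) ∈ K :=
      ⟨⟨by rw [mem_closedBall_zero_iff]; show ‖u'‖ ≤ ρ; linarith,
        by rw [mem_closedBall_zero_iff]; show ‖(t : ℂ) * v‖ ≤ ρ; linarith⟩, Fz _ _ hne' e'⟩
    refine lt_of_le_of_lt (hmin mem) (max_lt ?_ ?_)
    · show ‖u'‖ < ‖v‖
      linarith
    · show ‖(t : ℂ) * v‖ < ‖v‖
      linarith
  have w1 := mem_closedBall_zero_iff.1 hw.1.1
  have w2 := mem_closedBall_zero_iff.1 hw.1.2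
  rcases lt_trichotomy ‖w.1‖ ‖w.2‖ with h | h | h
  · exact absurd (key _ _ h w2 hw.2) (not_lt.2 (le_max_right _ _))
  · exact H _ _ h (w2.trans_lt ρ1) hw.2
  · exact absurd (key _ _ h w1 (by rw [sym]; exact hw.2)) (not_lt.2 (le_max_left _ _))

lemma star_free {a : ℂ} {s : ℝ} (hs : s ^ 2 = 15) (s0 : 0 < s)
    (hR : ‖a‖ ^ 2 = 27 / 16 * (s - 3)) (hT : (a ^ 3).re = 729 / 512 * (9 - 2 * s))
    {m : ℝ} (hm : |m| ≤ 2) {z : ℂ} (hz : ‖z‖ < 1) :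
    1 + (m * a) * z + ((m ^ 2 - 1) * (2 / 3 * conj a)) * z ^ 2 + ((m ^ 3 - 2 * m) / 4) * z ^ 3 ≠ 0 := by
  have s1 : 3.8729 < s := by nlinarith
  have s2 : s < 3.873 := by nlinarith
  obtain ⟨w, hw⟩ : ∃ w : ℝ, w = m ^ 2 := ⟨_, rfl⟩
  have w0 : 0 ≤ w := by rw [hw]; positivity
  have w4 : w ≤ 4 := by rw [hw]; nlinarith [abs_le.1 hm]
  obtain ⟨M, hM⟩ : ∃ M : ℝ, M = 3 * (w ^ 2 + 4) := ⟨_, rfl⟩
  obtain ⟨P, hP⟩ : ∃ P : ℝ, P = 8 * m * (1 + w) := ⟨_, rfl⟩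
  obtain ⟨Q, hQ⟩ : ∃ Q : ℝ, Q = 4 * (3 * w - 2) := ⟨_, rfl⟩
  obtain ⟨R, hRR⟩ : ∃ R : ℝ, R = ‖a‖ ^ 2 := ⟨_, rfl⟩
  have M0 : 0 < M := by rw [hM]; positivity
  have Mc : (M : ℂ) ≠ 0 := by exact_mod_cast M0.ne'
  have hN : 0 < M ^ 2 - R * Q ^ 2 := by
    have h1 : R ≤ 1.22 ^ 2 := by rw [hRR, hR]; norm_num; linarith
    have h2 : 0 < M - 1.22 * Q := by rw [hM, hQ]; nlinarith [sq_nonneg (w - 2.44)]
    have h3 : 0 < M + 1.22 * Q := by rw [hM, hQ]; nlinarith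
    nlinarith [mul_pos h2 h3, sq_nonneg Q]
  have hD : P ^ 2 * (M ^ 2 * R - 2 * M * Q * (a ^ 3).re + Q ^ 2 * R ^ 2) ≤ (M ^ 2 - R * Q ^ 2) ^ 2 := by
    have hq : 0 ≤ 81 * w ^ 4 + (3402 - 972 * s) * w ^ 3 + (98820 - 25272 * s) * w ^ 2 +
        (13608 - 3888 * s) * w + (393984 - 101088 * s) := by
      have g1 := mul_nonneg (sub_nonneg.2 s2.le) (pow_nonneg w0 3)
      have g2 := mul_nonneg (sub_nonneg.2 s2.le) (pow_nonneg w0 2)
      have g3 := mul_nonneg (sub_nonneg.2 s2.le) w0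
      nlinarith [sq_nonneg (9 * w ^ 2 - 20.15 * w), sq_nonneg (w - 1.36)]
    have hP2 : P ^ 2 = 64 * w * (1 + w) ^ 2 := by rw [hP, hw]; ring
    rw [hP2, hRR, hR, hT, hM, hQ]
    have := mul_nonneg (sq_nonneg (w ^ 2 - 3 * w + 1)) hq
    linear_combination this + (-(11664 - 81648 * w + 169128 * w ^ 2 - 125388 * w ^ 3 +
      41553 * w ^ 4 - 26244 * w ^ 5)) * hs
  have nB : ‖conj a * (Q / M : ℝ)‖ ^ 2 = R * Q ^ 2 / M ^ 2 := by
    rw [norm_mul, norm_conj, Complex.norm_real, mul_pow, Real.norm_eq_abs, sq_abs, hRR]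
    ring
  have hB : ‖conj a * (Q / M : ℝ)‖ < 1 := by
    have : ‖conj a * (Q / M : ℝ)‖ ^ 2 < 1 := by
      rw [nB, div_lt_one (by positivity)]; linarith
    nlinarith [norm_nonneg (conj a * (Q / M : ℝ))]
  have hA : ‖a * (P / M : ℝ) - conj a * (Q / M : ℝ) * conj (a * (P / M : ℝ))‖ ≤
      1 - ‖conj a * (Q / M : ℝ)‖ ^ 2 := by
    have e1 : a * (P / M : ℝ) - conj a * (Q / M : ℝ) * conj (a * (P / M : ℝ)) =
        ((P / M ^ 2 : ℝ) : ℂ) * (M * a - Q * conj a ^ 2) := by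
      rw [map_mul, conj_ofReal]; push_cast; field_simp
    have e2 : ‖M * a - Q * conj a ^ 2‖ ^ 2 = M ^ 2 * R - 2 * M * Q * (a ^ 3).re + Q ^ 2 * R ^ 2 := by
      rw [hRR, Complex.sq_norm, Complex.sq_norm]
      simp only [normSq_apply, pow_succ, pow_zero, one_mul, sub_re, sub_im, mul_re, mul_im,
        ofReal_re, ofReal_im, conj_re, conj_im]
      ring
    have e3 : 1 - R * Q ^ 2 / M ^ 2 = (M ^ 2 - R * Q ^ 2) / M ^ 2 := by field_simp
    rw [nB, e1, e3]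
    apply abs_le_of_sq_le_sq' _ (by positivity) |>.2
    rw [norm_mul, mul_pow, e2, Complex.norm_real, Real.norm_eq_abs, sq_abs, div_pow, div_pow,
      div_mul_eq_mul_div]
    gcongr
  have hγ : ‖(((m ^ 3 - 2 * m) / 4 : ℝ) : ℂ)‖ ≤ 1 := by
    rw [Complex.norm_real, Real.norm_eq_abs, abs_le_one_iff_mul_self_le_one]
    have : 0 ≤ (4 - w) * (w ^ 2 + 4) := mul_nonneg (by linarith) (by positivity)
    rw [hw] at this
    nlinarith
  have h := suff hB hA hγ hz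
  simp only [map_mul, conj_ofReal, conj_conj] at h
  have c1 : (P : ℂ) + (m ^ 3 - 2 * m) / 4 * Q = m * M := by
    rw [hP, hQ, hM, hw]; push_cast; ring
  have c2 : (Q : ℂ) + (m ^ 3 - 2 * m) / 4 * P = (m ^ 2 - 1) * (2 / 3) * M := by
    rw [hP, hQ, hM, hw]; push_cast; ring
  intro e
  apply h
  push_cast
  have iM : (M : ℂ) * (M : ℂ)⁻¹ = 1 := mul_inv_cancel₀ Mc
  linear_combination e + a * z * (M : ℂ)⁻¹ * c1 + conj a * z ^ 2 * (M : ℂ)⁻¹ * c2 +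
    (m * a * z + (m ^ 2 - 1) * (2 / 3) * conj a * z ^ 2) * iM

theorem star_inj {a : ℂ} {s : ℝ} (hs : s ^ 2 = 15) (s0 : 0 < s)
    (hR : ‖a‖ ^ 2 = 27 / 16 * (s - 3)) (hT : (a ^ 3).re = 729 / 512 * (9 - 2 * s)) :
    InjOn (fun z : ℂ => z + a * z ^ 2 + 2 / 3 * conj a * z ^ 3 + 1 / 4 * z ^ 4) (ball 0 1) := by
  refine inj_of (F := fun x y => 1 + a * (x + y) + 2 / 3 * conj a * (x ^ 2 + x * y + y ^ 2) +
    1 / 4 * (x ^ 3 + x ^ 2 * y + x * y ^ 2 + y ^ 3)) (by fun_prop) (by fun_prop)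
    (fun x y => by ring) (fun x y => by ring) ?_
  intro x y hxy hy
  by_cases y0 : y = 0
  · have : x = 0 := by rw [← norm_eq_zero, hxy, y0, norm_zero]
    simp [this, y0]
  obtain ⟨κ, hκ⟩ := IsAlgClosed.exists_pow_nat_eq (x / y) (n := 2) (by norm_num)
  have n1 : ‖κ‖ = 1 := by
    have := congrArg norm hκ
    rw [norm_pow, norm_div, hxy, div_self (norm_ne_zero_iff.2 y0)] at this
    nlinarith [norm_nonneg κ]
  have hprod : κ * conj κ = 1 := by rw [mul_conj', n1]; simp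
  have hm : |2 * κ.re| ≤ 2 := by
    rw [abs_mul, abs_two]
    linarith [Complex.abs_re_le_norm κ]
  have h := star_free hs s0 hR hT hm (z := y * κ) (by rw [norm_mul, n1]; linarith)
  have ex : x = y * κ ^ 2 := by rw [hκ]; field_simp
  rw [← add_conj] at h
  intro e
  apply h
  rw [ex] at e
  linear_combination e + (a * y + 2 / 3 * conj a * y ^ 2 * (2 * κ ^ 2 + κ * conj κ + 1) +
    1 / 4 * y ^ 3 * (3 * κ ^ 4 + 3 * κ ^ 3 * conj κ + κ ^ 2 + κ ^ 2 * conj κ ^ 2 + κ * conj κ + 1)) * hprod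

end Pool.Agent.MP_d3fa2a_an.Q4L
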