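import Pool.Agent.MP_d3fa2a_an.Q4L.Dom
import Pool.Agent.MP_d3fa2a_an.Q4L.Univ

/-! The corner, the symmetries and the comparison for exponents at least two. -/

namespace Pool.Agent.MP_d3fa2a_an.Q4L

open Complex Metric Real Set ComplexConjugate

variable {s L f X Y : ℝ}

lemma cor_of {a : ℂ} {r : ℝ} (hr : r ^ 2 = 15) (r0 : 0 < r) (hf : f ^ 2 = f + 1) (f0 : 1 < f)
    (hR : ‖a‖ ^ 2 = 27 / 16 * (r - 3)) (hT : (a ^ 3).re = 729 / 512 * (9 - 2 * r))
    (x0 : 0 ≤ a.re) (hs : a.im ^ 2 ≤ 3 * a.re ^ 2) (y0 : 0 ≤ a.im) : Cor f a.re a.im := by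
  have r1 : 3.872983346 < r := by nlinarith
  have r2 : r < 3.872983347 := by nlinarith
  rw [Complex.sq_norm, normSq_apply] at hR
  simp only [pow_succ, pow_zero, one_mul, mul_re, mul_im] at hT
  generalize a.re = X at *
  generalize a.im = Y at *
  have hY : Y ^ 2 = 27 / 16 * (r - 3) - X ^ 2 := by linarith
  have hX : 4 * X ^ 3 - 81 / 16 * (r - 3) * X - 729 / 512 * (9 - 2 * r) = 0 := by
    linear_combination hT + 3 * X * hY
  have x2 : 0.36 ≤ X ^ 2 := by linarith [hs]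
  have x1 : 0.6 ≤ X := by nlinarith
  have X0 : 1.21354907 ≤ X := by
    by_contra h
    push Not at h
    have h1 : 0 < 4 * (X ^ 2 + X * 1.21354907 + 1.21354907 ^ 2) - 81 / 16 * (r - 3) := by nlinarith
    nlinarith [mul_pos (sub_pos.2 h) h1]
  have X1 : X ≤ 1.21354909 := by
    by_contra h
    push Not at h
    have h1 : 0 < 4 * (X ^ 2 + X * 1.21354909 + 1.21354909 ^ 2) - 81 / 16 * (r - 3) := by nlinarith
    nlinarith [mul_pos (sub_pos.2 h) h1]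
  have hT' : X ^ 3 - 3 * X * Y ^ 2 = 729 / 512 * (9 - 2 * r) := by linarith
  have hR' : X ^ 2 + Y ^ 2 = 27 / 16 * (r - 3) := by linarith
  refine ⟨by nlinarith, by nlinarith, X0, X1, ?_, ?_, ?_, ?_⟩
  · apply abs_le_of_sq_le_sq' _ y0 |>.2
    nlinarith
  · apply abs_le_of_sq_le_sq' _ (by norm_num) |>.2
    nlinarith
  · have e : U1 f X Y ^ 2 + V1 f X Y ^ 2 - M1 f X Y ^ 2 = (25 / 32) ^ 2 * f ^ 2 * (X ^ 2 + Y ^ 2) -
        2 * (25 / 32) * (25 / 72) * f ^ 3 * (X ^ 3 - 3 * X * Y ^ 2) +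
        (25 / 72) ^ 2 * f ^ 4 * (X ^ 2 + Y ^ 2) ^ 2 -
        (225 / 256 - 25 / 144 * f ^ 2 * (X ^ 2 + Y ^ 2)) ^ 2 := by
      unfold U1 V1 M1; ring
    rw [hT', hR'] at e
    linear_combination e + (-455625 / 65536 - 151875 / 32768 * f + 16875 / 65536 * f * r ^ 2 +
      151875 / 65536 * f ^ 2 - 50625 / 32768 * f ^ 2 * r + 16875 / 65536 * f ^ 2 * r ^ 2 +
      16875 / 32768 * r ^ 2) * hf + (16875 / 32768 + 50625 / 65536 * f) * hr
  · have e : U2 f X Y ^ 2 + V2 f X Y ^ 2 - M2 f X Y ^ 2 =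
        (25 / 32) ^ 2 * (f - 1) ^ 2 * (X ^ 2 + Y ^ 2) +
        2 * (25 / 32) * (25 / 72) * (f - 1) ^ 3 * (X ^ 3 - 3 * X * Y ^ 2) +
        (25 / 72) ^ 2 * (f - 1) ^ 4 * (X ^ 2 + Y ^ 2) ^ 2 -
        (225 / 256 - 25 / 144 * (f - 1) ^ 2 * (X ^ 2 + Y ^ 2)) ^ 2 := by
      unfold U2 V2 M2; ring
    rw [hT', hR'] at e
    linear_combination e + (-151875 / 16384 + 50625 / 16384 * f * r - 50625 / 65536 * f * r ^ 2 +
      151875 / 65536 * f ^ 2 - 50625 / 32768 * f ^ 2 * r + 16875 / 65536 * f ^ 2 * r ^ 2 -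
      50625 / 32768 * r + 16875 / 16384 * r ^ 2) * hf + (84375 / 65536 - 50625 / 65536 * f) * hr

lemma G_conv (hs : 1 ≤ s) {a b c a' b' c' : ℂ} (h : Dom s L (G a b c)) (h' : Dom s L (G a' b' c'))
    {t : ℝ} (h0 : 0 ≤ t) (h1 : t ≤ 1) :
    Dom s L (G (t * a + (1 - t) * a') (t * b + (1 - t) * b') (t * c + (1 - t) * c')) := by
  refine (h.conv hs h' h0 h1).mono hs (G_cont _ _ _) fun z _ => ?_
  unfold G
  set p := 1 + a * z + b * z ^ 2 + c * z ^ 3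
  set q := 1 + a' * z + b' * z ^ 2 + c' * z ^ 3
  have e : 1 + (t * a + (1 - t) * a') * z + (t * b + (1 - t) * b') * z ^ 2 +
      (t * c + (1 - t) * c') * z ^ 3 = (t : ℂ) * p + ((1 - t : ℝ) : ℂ) * q := by
    simp only [p, q]; push_cast; ring
  have k := norm_add_le ((t : ℂ) * p) (((1 - t : ℝ) : ℂ) * q)
  rw [norm_mul, norm_mul, Complex.norm_real, Complex.norm_real, Real.norm_of_nonneg h0,
    Real.norm_of_nonneg (sub_nonneg.2 h1)] at k
  rw [e]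
  nlinarith [pow_le_pow_left₀ (norm_nonneg _) k 2,
    mul_nonneg (mul_nonneg h0 (sub_nonneg.2 h1)) (sq_nonneg (‖p‖ - ‖q‖))]

lemma G_rot (hs : 1 ≤ s) {a b c u : ℂ} (h : Dom s L (G a b c)) (hu : ‖u‖ = 1) :
    Dom s L (G (a * u) (b * u ^ 2) (c * u ^ 3)) :=
  (h.rot hu).mono hs (G_cont _ _ _) fun z _ => le_of_eq (by unfold G; congr 2; ring)

lemma G_cj (hs : 1 ≤ s) {a b c : ℂ} (h : Dom s L (G a b c)) :
    Dom s L (G (conj a) (conj b) (conj c)) :=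
  h.cj.mono hs (G_cont _ _ _) fun z _ => le_of_eq (by
    unfold G; rw [← norm_conj]; simp)

/-- the polynomials of the face -/
noncomputable def Fc (a : ℂ) : ℂ → ℝ := G a (2 / 3 * conj a) (1 / 4)

lemma Fc_cj (hs : 1 ≤ s) {a : ℂ} (h : Dom s L (Fc a)) : Dom s L (Fc (conj a)) := by
  have := G_cj hs h
  simpa [Fc, map_ofNat] using this

lemma Fc_conv (hs : 1 ≤ s) {a a' : ℂ} (h : Dom s L (Fc a)) (h' : Dom s L (Fc a'))
    {t : ℝ} (h0 : 0 ≤ t) (h1 : t ≤ 1) : Dom s L (Fc (t * a + (1 - t) * a')) := by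
  have := G_conv hs h h' h0 h1
  unfold Fc
  convert this using 2
  · simp only [map_add, map_mul, map_sub, conj_ofReal, map_one]; ring
  · ring

lemma Fc_eq (X Y : ℝ) {z : ℂ} (hz : ‖z‖ = 1) : 1 / 2 * Fc ⟨X, Y⟩ z + (1 - 1 / 2) * Fc ⟨X, Y⟩ (conj z) =
    17 / 16 + 13 / 9 * (X ^ 2 + Y ^ 2) + 2 * ((7 / 6 * X + 2 / 3 * (X ^ 2 - Y ^ 2)) * z.re +
      11 / 12 * X * (z ^ 2).re + 1 / 4 * (z ^ 3).re) := by
  unfold Fc
  rw [G_eq _ _ _ hz, G_eq _ _ _ (z := conj z) (by simpa using hz)]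
  simp only [Complex.sq_norm, normSq_apply]
  simp only [pow_succ, pow_zero, one_mul, add_re, add_im, mul_re,
    mul_im, conj_re, conj_im, div_ofNat_re, div_ofNat_im, re_ofNat, im_ofNat, one_re, one_im]
  ring

lemma base (hs : 1 ≤ s) (hC : Cor f X Y) (h : Dom s L (Fc ⟨X, Y⟩)) : Dom s L (T2 1 1) := by
  obtain ⟨κ, nκ, hκ⟩ := unimod (u := 91 / 50) (by norm_num [abs_le])
  have h1 := h.conv hs h.cj (t := 1 / 2) (by norm_num) (by norm_num)
  have h2 := (h1.rot nκ).conv hs (h1.rot (u := conj κ) (by simpa using nκ)) (t := 1 / 2)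
    (by norm_num) (by norm_num)
  refine h2.mono hs (T2_cont _ _) fun z hz => ?_
  rw [Fc_eq X Y (z := κ * z) (by simp [nκ, hz]), Fc_eq X Y (z := conj κ * z) (by simp [nκ, hz])]
  have k1 : κ.re = 91 / 100 := by
    have := congrArg re hκ
    simp at this
    linarith
  have k2 : κ.im ^ 2 = 1 - (91 / 100) ^ 2 := by
    have := Complex.sq_norm κ
    rw [nκ, normSq_apply, k1] at this
    linarith
  have z2 : z.im ^ 2 = 1 - z.re ^ 2 := by
    have := Complex.sq_norm z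
    rw [hz, normSq_apply] at this
    linarith
  have e1 : (κ * z).re + (conj κ * z).re = 91 / 50 * z.re := by simp [k1]; ring
  have e2 : ((κ * z) ^ 2).re + ((conj κ * z) ^ 2).re = 3281 / 2500 * (2 * z.re ^ 2 - 1) := by
    simp only [pow_succ, pow_zero, one_mul, mul_re, mul_im, conj_re, conj_im, k1]
    linear_combination (-2 * (z.re ^ 2 - z.im ^ 2)) * k2 - 3281 / 2500 * z2
  have e3 : ((κ * z) ^ 3).re + ((conj κ * z) ^ 3).re = 71071 / 125000 * (4 * z.re ^ 3 - 3 * z.re) := by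
    simp only [pow_succ, pow_zero, one_mul, mul_re, mul_im, conj_re, conj_im, k1]
    linear_combination (-(273 / 50) * (z.re ^ 3 - 3 * z.re * z.im ^ 2)) * k2 -
      213213 / 125000 * z.re * z2
  have e4 : T2 1 1 z = 301 / 100 + 2 * (223 / 100 * z.re + 39 / 50 * (2 * z.re ^ 2 - 1)) := by
    unfold T2
    simp only [pow_succ, pow_zero, one_mul, mul_one, add_re, mul_re, mul_im, div_ofNat_re,
      div_ofNat_im, re_ofNat, im_ofNat]
    linear_combination (-(39 / 25)) * z2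
  have hx := abs_le.1 ((Complex.abs_re_le_norm z).trans hz.le)
  obtain ⟨p, hp⟩ : ∃ p : ℝ, p = 7 / 6 * X + 2 / 3 * (X ^ 2 - Y ^ 2) := ⟨_, rfl⟩
  have p0 : 2.3973 ≤ p := by rw [hp]; nlinarith [hC.X0, hC.X1, hC.Y0, hC.Y1]
  have p1 : p ≤ 2.3974 := by rw [hp]; nlinarith [hC.X0, hC.X1, hC.Y0, hC.Y1]
  have R0 : 1.4731 ≤ X ^ 2 + Y ^ 2 := by nlinarith [hC.X0, hC.X1, hC.Y0, hC.Y1]
  have g1 : 2.3973 * z.re - 0.0001 ≤ p * z.re := by nlinarith
  have g2 : 1.2135 * (2 * z.re ^ 2 - 1) - 0.0001 ≤ X * (2 * z.re ^ 2 - 1) := by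
    nlinarith [hC.X0, hC.X1, sq_nonneg z.re]
  have g3 : 0 ≤ 0.28 - 0.52334 * z.re - 0.20024 * z.re ^ 2 + 0.568568 * z.re ^ 3 := by
    nlinarith [mul_nonneg (by linarith : 0 ≤ z.re + 1) (sq_nonneg (z.re - 0.6835)),
      sq_nonneg (z.re - 0.685)]
  rw [e4, ← hp]
  have g4 : p * (κ * z).re + p * (conj κ * z).re = 91 / 50 * (p * z.re) := by
    linear_combination p * e1
  have g5 : X * ((κ * z) ^ 2).re + X * ((conj κ * z) ^ 2).re =
      3281 / 2500 * (X * (2 * z.re ^ 2 - 1)) := by linear_combination X * e2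
  nlinarith [sq_nonneg z.re]

lemma Fc_small (hs : 1 ≤ s) (hB : Dom s L (T2 1 1)) {a : ℂ} (h : ‖a‖ ^ 2 ≤ 81 / 100) :
    Dom s L (Fc a) := by
  refine domS hs hB h ?_ (by norm_num)
  rw [norm_mul, norm_conj]
  norm_num
  nlinarith [norm_nonneg a]

lemma Fc_trap (hs : 1 ≤ s) (hC : Cor f X Y) (h : Dom s L (Fc ⟨X, Y⟩)) {x y : ℝ}
    (x0 : 127 / 200 ≤ x) (x1 : x ≤ X) (y0 : 0 ≤ y) (y1 : x + y ≤ X + Y) : Dom s L (Fc ⟨x, y⟩) := by
  have hX0 := hC.X0
  have hX1 := hC.X1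
  have hY0 := hC.Y0
  have hY1 := hC.Y1
  have d0 : 0 < X + Y - x := by linarith
  have d1 : 0 < X - 127 / 200 := by linarith
  obtain ⟨w, hw⟩ : ∃ w : ℝ, w = y / (X + Y - x) := ⟨_, rfl⟩
  have w0 : 0 ≤ w := by rw [hw]; positivity
  have w1 : w ≤ 1 := by rw [hw, div_le_one d0]; linarith
  have g1 := Fc_conv hs h (Fc_cj hs h) (t := (1 + w) / 2) (by linarith) (by linarith)
  have g2 := Fc_small hs (base hs hC h) (a := ⟨127 / 200, (X + Y - 127 / 200) * w⟩) (by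
    rw [Complex.sq_norm, normSq_apply]
    have k1 : (X + Y - 127 / 200) * w ≤ 0.6 := by nlinarith
    have k2 : 0 ≤ (X + Y - 127 / 200) * w := mul_nonneg (by linarith) w0
    simp only
    nlinarith)
  obtain ⟨t, ht⟩ : ∃ t : ℝ, t = (X - x) / (X - 127 / 200) := ⟨_, rfl⟩
  have g3 := Fc_conv hs g2 g1 (t := t) (ht ▸ div_nonneg (by linarith) d1.le)
    (by rw [ht, div_le_one d1]; linarith)
  have e1 : t * (X - 127 / 200) = X - x := by rw [ht]; exact div_mul_cancel₀ _ d1.ne'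
  have e2 : w * (X + Y - x) = y := by rw [hw]; exact div_mul_cancel₀ _ d0.ne'
  convert g3 using 2
  apply Complex.ext
  · simp only [add_re, mul_re, ofReal_re, ofReal_im, sub_re, sub_im, add_im, mul_im, one_re, one_im,
      conj_re, conj_im]
    linear_combination e1
  · simp only [add_re, mul_re, ofReal_re, ofReal_im, sub_re, sub_im, add_im, mul_im, one_re, one_im,
      conj_re, conj_im]
    linear_combination -e2 - w * e1

lemma Hyp.neg {x y e u v : ℝ} (h : Hyp f x y e u v) : Hyp f x (-y) e u (-v) := by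
  have e1 : rN x (-y) e u (-v) = rN x y e u v := by simp only [rN, rB2]; ring
  have e2 : rP x (-y) e u (-v) = rP x y e u v := by simp only [rP, rA2, rB2]; ring
  have e3 : rQ x (-y) e u (-v) = -rQ x y e u v := by simp only [rQ, rA2, rB2]; ring
  have e4 : rA2 (-y) e (-v) = -rA2 y e v := by simp only [rA2]; ring
  refine ⟨h.e0, h.e1, by linarith [h.hd], h.hL, by rw [abs_neg]; exact h.hy, ?_, ?_, ?_, ?_⟩ <;>
    simp only [e1, e2, e3, e4]
  · exact h.n1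
  · linarith [h.w1]
  · exact h.n2
  · linarith [h.w2]

lemma bd_a (hC : Cor f X Y) {x y v : ℝ}
    (hR : x ^ 2 + y ^ 2 ≤ 81 / 100 ∨ (127 / 200 ≤ x ∧ x ≤ X ∧ x + y ≤ X + Y)) (v1 : |v| ≤ 1)
    (y0 : 0 ≤ y) : (x + 1 / 40) ^ 2 + (y + 2 / 5 * v) ^ 2 ≤ 1.7357 ∧
      (x + 1 / 40) ^ 2 + (y + 2 / 5 * v) ^ 2 ≤ 1.53636 + 0.2482 * v ^ 2 := by
  have v0 := abs_nonneg v
  have v2 := sq_abs v
  have v3 := mul_le_mul_of_nonneg_left (le_abs_self v) y0
  have v4 := mul_nonneg v0 (sub_nonneg.2 v1)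
  rcases hR with k | ⟨k1, k2, k3⟩
  · have x1 : x ≤ 0.9 := by nlinarith
    have y1 : y * |v| ≤ 0.9 * |v| := mul_le_mul_of_nonneg_right (by nlinarith) v0
    have y2 := sq_nonneg (1 - |v|)
    constructor <;> linarith
  · have hX0 := hC.X0
    have hX1 := hC.X1
    have hY1 := hC.Y1
    have y1 : y ≤ 0.0215 + (X - x) := by linarith
    have y2 : y ^ 2 ≤ (0.0215 + (X - x)) ^ 2 := pow_le_pow_left₀ y0 y1 2
    have y3 := mul_le_mul_of_nonneg_right y1 v0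
    have y4 : (x + 1 / 40) ^ 2 ≤ (1.23855 - (X - x)) ^ 2 :=
      pow_le_pow_left₀ (by linarith) (by linarith) 2
    have y5 : 0 ≤ (X - x) * (2.4341 - 2 * (X - x) - 0.8 * |v|) :=
      mul_nonneg (by linarith) (by linarith)
    have y6 := sq_nonneg (|v| - 0.1)
    constructor <;> linarith

lemma bd_b {e u v : ℝ} (e0 : 0 ≤ e) (e1 : e ≤ 1 / 4) (hd : u ^ 2 + v ^ 2 ≤ 1) :
    (((2 - 4 * e) * u + (1 - 4 * e) / 20) / 3) ^ 2 + (v * (6 / 5 - 4 / 5 * e) / 3) ^ 2 ≤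
      0.46695 - 0.2955 * v ^ 2 := by
  have a1 : |(2 - 4 * e) * u + (1 - 4 * e) / 20| ≤ 2 * |u| + 1 / 20 := by
    refine (abs_add_le _ _).trans (add_le_add ?_ ?_)
    · rw [abs_mul, abs_of_nonneg (by linarith)]
      exact mul_le_mul_of_nonneg_right (by linarith) (abs_nonneg u)
    · rw [abs_of_nonneg (by linarith)]; linarith
  have a2 := pow_le_pow_left₀ (abs_nonneg _) a1 2
  rw [sq_abs] at a2
  have a3 : (6 / 5 - 4 / 5 * e) ^ 2 ≤ 36 / 25 := by nlinarith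
  have a4 := mul_le_mul_of_nonneg_left a3 (sq_nonneg v)
  linarith [sq_abs u, sq_nonneg (|u| - 1), sq_nonneg v]

lemma main_pos (hs : 1 ≤ s) (hC : Cor f X Y) (h : Dom s L (Fc ⟨X, Y⟩)) {x y e u v : ℝ}
    (H : Hyp f (x + e / 10) (y + 8 / 5 * (e * v)) e u v)
    (h1 : (y + 8 / 5 * (e * v)) ^ 2 ≤ 3 * (x + e / 10) ^ 2) (h2 : 9 / 20 ≤ x + e / 10) (y0 : 0 ≤ y) :
    Dom s L (G ⟨x + e / 10, y + 8 / 5 * (e * v)⟩ (8 / 3 * ((1 / 4 - e : ℝ) : ℂ) *
      conj (⟨x + e / 10, y + 8 / 5 * (e * v)⟩ : ℂ) + rD e * (u + v * I)) ((1 / 4 - e : ℝ) : ℂ)) := by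
  have hB := base hs hC h
  have hR := region hC H h1 h2 y0
  have e0 := H.e0
  have e1 := H.e1
  have hd := H.hd
  have v1 := H.v1
  have g1 : Dom s L (Fc ⟨x, y⟩) := by
    rcases hR with k | ⟨k1, k2, k3⟩
    · exact Fc_small hs hB (by rw [Complex.sq_norm, normSq_apply]; simp only; linarith)
    · exact Fc_trap hs hC h k1 k2 y0 k3
  have k0 := bd_a hC hR v1 y0
  have k1 := bd_b e0 e1 hd
  have g2 := domZ hs hB (a := ⟨x + 1 / 40, y + 2 / 5 * v⟩)
    (b := ⟨((2 - 4 * e) * u + (1 - 4 * e) / 20) / 3, v * (6 / 5 - 4 / 5 * e) / 3⟩)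
    (by rw [Complex.sq_norm, normSq_apply]; simp only; linarith [k0.1])
    (by rw [Complex.sq_norm, normSq_apply]; simp only; linarith [sq_nonneg v])
    (by rw [Complex.sq_norm, Complex.sq_norm, normSq_apply, normSq_apply]; simp only
        linarith [k0.2, sq_nonneg v])
  have g3 := G_conv hs g2 g1 (t := 4 * e) (by linarith) (by linarith)
  convert g3 using 2
  · apply Complex.ext <;> simp <;> ring
  · apply Complex.ext <;> simp <;> unfold rD <;> ring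
  · push_cast; ring

lemma main_sec (hs : 1 ≤ s) (hC : Cor f X Y) (h : Dom s L (Fc ⟨X, Y⟩)) (hf : f ^ 2 = f + 1)
    {a b : ℂ} {c : ℝ} (hc : 0 ≤ c) (x0 : 0 ≤ a.re) (h1 : a.im ^ 2 ≤ 3 * a.re ^ 2)
    (hi : InjOn (fun z : ℂ => z + a * z ^ 2 + b * z ^ 3 + c * z ^ 4) (ball 0 1)) :
    Dom s L (G a b c) := by
  obtain ⟨e, u, v, rfl, rfl, H⟩ := hyp_of hc hf (by linarith [hC.f0]) hi
  have e0 := H.e0
  rcases le_total (‖a‖ ^ 2) (81 / 100) with k | k
  · have nc : ‖((1 / 4 - e : ℝ) : ℂ)‖ = 1 / 4 - e := by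
      rw [Complex.norm_real, Real.norm_of_nonneg hc]
    refine domS hs (base hs hC h) k ((norm_add_le _ _).trans ?_) (by rw [nc]; linarith)
    have d0 : 0 ≤ rD e := by unfold rD; nlinarith
    have n1 : ‖(u : ℂ) + v * I‖ ≤ 1 := by
      rw [norm_add_mul_I]
      exact Real.sqrt_le_one.2 H.hd
    have n2 : ‖a‖ ≤ 0.9 := by nlinarith [norm_nonneg a]
    rw [norm_mul, norm_mul, norm_mul, nc, norm_conj, Complex.norm_real, Real.norm_of_nonneg d0]
    have n3 := mul_le_mul_of_nonneg_left n1 d0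
    have n4 := mul_le_mul_of_nonneg_left n2 hc
    norm_num
    unfold rD at *
    nlinarith [sq_nonneg (1 / 4 - e - 0.225)]
  rw [Complex.sq_norm, normSq_apply] at k
  have h2 : 9 / 20 ≤ a.re := by nlinarith
  have ex : a.re - e / 10 + e / 10 = a.re := by ring
  rcases le_total 0 (a.im - 8 / 5 * (e * v)) with y0 | y0
  · have ey : a.im - 8 / 5 * (e * v) + 8 / 5 * (e * v) = a.im := by ring
    have := main_pos hs hC h (x := a.re - e / 10) (y := a.im - 8 / 5 * (e * v)) (e := e) (u := u)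
      (v := v) (by rwa [ex, ey]) (by rwa [ex, ey]) (by rwa [ex]) y0
    rwa [ex, ey] at this
  · have ey : -(a.im - 8 / 5 * (e * v)) + 8 / 5 * (e * -v) = -a.im := by ring
    have := G_cj hs (main_pos hs hC h (x := a.re - e / 10) (y := -(a.im - 8 / 5 * (e * v))) (e := e)
      (u := u) (v := -v) (by rw [ex, ey]; exact H.neg) (by rw [ex, ey]; linarith) (by rwa [ex])
      (by linarith))
    rw [ex, ey] at this
    convert this using 2
    · apply Complex.ext <;> simp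
    · apply Complex.ext <;> simp [map_ofNat]
    · rw [conj_ofReal]

lemma sector (a : ℂ) : ∃ u : ℂ, ‖u‖ = 1 ∧ u ^ 3 = 1 ∧ 0 ≤ (a * u).re ∧
    (a * u).im ^ 2 ≤ 3 * (a * u).re ^ 2 := by
  obtain ⟨ω, nω, hω⟩ := unimod (u := -1) (by norm_num)
  have k1 : ω.re = -1 / 2 := by
    have := congrArg re hω
    simp at this
    linarith
  have k2 : ω.im ^ 2 = 3 / 4 := by
    have := Complex.sq_norm ω
    rw [nω, normSq_apply, k1] at this
    linarith
  have hp : ω * conj ω = 1 := by rw [mul_conj', nω]; simp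
  push_cast at hω
  have c1 : ω ^ 3 = 1 := by linear_combination (ω - 1) * ω * hω - (ω - 1) * hp
  have c2 : conj ω ^ 3 = 1 := by rw [← map_pow, c1, map_one]
  have key : ∀ w : ℂ, (w * ω).re ≤ w.re → (w * conj ω).re ≤ w.re →
      0 ≤ w.re ∧ w.im ^ 2 ≤ 3 * w.re ^ 2 := by
    intro w g1 g2
    simp only [mul_re, conj_re, conj_im, k1] at g1 g2
    refine ⟨by linarith, ?_⟩
    have : (w.im * ω.im) ^ 2 ≤ (3 / 2 * w.re) ^ 2 := sq_le_sq' (by linarith) (by linarith)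
    rw [mul_pow, k2] at this
    linarith
  have e1 : a * ω * ω = a * conj ω := by linear_combination a * conj ω * c1 - a * ω ^ 2 * hp
  have e2 : a * ω * conj ω = a := by linear_combination a * hp
  have e3 : a * conj ω * ω = a := by linear_combination a * hp
  have e4 : a * conj ω * conj ω = a * ω := by linear_combination a * ω * c2 - a * conj ω ^ 2 * hp
  have o0 : (a * ω).re ≤ a.re → (a * conj ω).re ≤ a.re → ∃ u : ℂ, ‖u‖ = 1 ∧ u ^ 3 = 1 ∧
      0 ≤ (a * u).re ∧ (a * u).im ^ 2 ≤ 3 * (a * u).re ^ 2 :=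
    fun g1 g2 => ⟨1, by simp, by simp, by simpa using key a g1 g2⟩
  have o1 : (a * conj ω).re ≤ (a * ω).re → a.re ≤ (a * ω).re → ∃ u : ℂ, ‖u‖ = 1 ∧ u ^ 3 = 1 ∧
      0 ≤ (a * u).re ∧ (a * u).im ^ 2 ≤ 3 * (a * u).re ^ 2 :=
    fun g1 g2 => ⟨ω, nω, c1, key _ (by rwa [e1]) (by rwa [e2])⟩
  have o2 : a.re ≤ (a * conj ω).re → (a * ω).re ≤ (a * conj ω).re → ∃ u : ℂ, ‖u‖ = 1 ∧ u ^ 3 = 1 ∧
      0 ≤ (a * u).re ∧ (a * u).im ^ 2 ≤ 3 * (a * u).re ^ 2 :=
    fun g1 g2 => ⟨conj ω, by simpa using nω, c2, key _ (by rwa [e3]) (by rwa [e4])⟩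
  rcases le_total (a * ω).re a.re with g1 | g1 <;> rcases le_total (a * conj ω).re a.re with g2 | g2 <;>
    rcases le_total (a * ω).re (a * conj ω).re with g3 | g3 <;>
    first | exact o0 g1 g2 | exact o1 g3 g1 | exact o2 g2 g3 | exact o2 g2 (g1.trans g2) |
      exact o1 (g2.trans g1) g1

lemma inj_rot {a b c u : ℂ} (hu : ‖u‖ = 1)
    (hi : InjOn (fun z : ℂ => z + a * z ^ 2 + b * z ^ 3 + c * z ^ 4) (ball 0 1)) :
    InjOn (fun z : ℂ => z + a * u * z ^ 2 + b * u ^ 2 * z ^ 3 + c * u ^ 3 * z ^ 4) (ball 0 1) := by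
  intro x hx y hy e
  have u0 : u ≠ 0 := by rintro rfl; simp at hu
  refine mul_left_cancel₀ u0 (hi (by simpa [hu] using hx) (by simpa [hu] using hy) ?_)
  simp only at e ⊢
  linear_combination u * e

/-- normal form: last coefficient nonnegative, first coefficient in a sector -/
lemma normal (a c : ℂ) : ∃ u : ℂ, ‖u‖ = 1 ∧ c * u ^ 3 = (‖c‖ : ℝ) ∧ 0 ≤ (a * u).re ∧
    (a * u).im ^ 2 ≤ 3 * (a * u).re ^ 2 := by
  set w : ℂ := cexp (((-arg c / 3 : ℝ) : ℂ) * I) with hw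
  have w1 : ‖w‖ = 1 := by rw [hw, Complex.norm_exp_ofReal_mul_I]
  have w2 : c * w ^ 3 = (‖c‖ : ℝ) := by
    rw [hw, ← Complex.exp_nat_mul]
    nth_rewrite 1 [← norm_mul_exp_arg_mul_I c]
    have e : (arg c : ℂ) * I + ((3 : ℕ) : ℂ) * (((-arg c / 3 : ℝ) : ℂ) * I) = 0 := by push_cast; ring
    rw [mul_assoc, ← Complex.exp_add, e, Complex.exp_zero, mul_one]
  obtain ⟨u, u1, u2, u3⟩ := sector (a * w)
  refine ⟨w * u, by simp [w1, u1], by rw [mul_pow, u2, mul_one, w2], by rwa [← mul_assoc]⟩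

theorem large4 (hs : 1 ≤ s) {A : ℂ} (hR : ‖A‖ ^ 2 = 27 / 16 * (√15 - 3))
    (hT : (A ^ 3).re = 729 / 512 * (9 - 2 * √15)) (h : Dom s L (Fc A)) {a b c : ℂ}
    (hi : InjOn (fun z : ℂ => z + a * z ^ 2 + b * z ^ 3 + c * z ^ 4) (ball 0 1)) :
    Dom s L (G a b c) := by
  have hf := Real.goldenRatio_sq
  have f1 := Real.one_lt_goldenRatio
  have r2 : √15 ^ 2 = 15 := Real.sq_sqrt (by norm_num)
  have r0 : 0 < √15 := Real.sqrt_pos.2 (by norm_num)
  obtain ⟨X, Y, hC, hD⟩ : ∃ X Y : ℝ, Cor Real.goldenRatio X Y ∧ Dom s L (Fc ⟨X, Y⟩) := by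
    obtain ⟨u, u1, u2, u3, u4⟩ := sector A
    have hp : u * conj u = 1 := by rw [mul_conj', u1]; simp
    have g1 : Dom s L (Fc (A * u)) := by
      have := G_rot hs h u1
      unfold Fc
      convert this using 2
      · rw [map_mul]
        linear_combination (2 / 3 * conj A * u ^ 2) * hp - (2 / 3 * conj A * conj u) * u2
      · rw [u2, mul_one]
    have g2 : ‖A * u‖ ^ 2 = 27 / 16 * (√15 - 3) := by rw [norm_mul, u1, mul_one, hR]
    have g3 : ((A * u) ^ 3).re = 729 / 512 * (9 - 2 * √15) := by rw [mul_pow, u2, mul_one, hT]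
    generalize A * u = w at g1 g2 g3 u3 u4
    rcases le_total 0 w.im with y0 | y0
    · exact ⟨w.re, w.im, cor_of r2 r0 hf f1 g2 g3 u3 u4 y0, g1⟩
    · have g4 := cor_of (a := conj w) r2 r0 hf f1 (by rwa [norm_conj])
        (by rwa [← map_pow, conj_re]) (by rwa [conj_re]) (by rwa [conj_im, conj_re, neg_sq])
        (by rw [conj_im]; linarith)
      have g5 := Fc_cj hs g1
      generalize conj w = w' at g4 g5
      exact ⟨w'.re, w'.im, g4, g5⟩
  obtain ⟨u, u1, u2, u3, u4⟩ := normal a c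
  have g := inj_rot u1 hi
  rw [u2] at g
  have g2 := G_rot hs (main_sec hs hC hD hf (norm_nonneg c) u3 u4 g) (u := conj u) (by simpa using u1)
  have hp : u * conj u = 1 := by rw [mul_conj', u1]; simp
  rw [← u2] at g2
  convert g2 using 2
  · linear_combination (-a) * hp
  · linear_combination (-b * (u * conj u + 1)) * hp
  · linear_combination (-c * ((u * conj u) ^ 2 + u * conj u + 1)) * hp

lemma exists_star : ∃ A : ℂ, ‖A‖ ^ 2 = 27 / 16 * (√15 - 3) ∧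
    (A ^ 3).re = 729 / 512 * (9 - 2 * √15) := by
  have r2 : √15 ^ 2 = 15 := Real.sq_sqrt (by norm_num)
  have r0 : 0 < √15 := Real.sqrt_pos.2 (by norm_num)
  have r1 : 3.8729 < √15 := by nlinarith
  have r3 : √15 < 3.873 := by nlinarith
  obtain ⟨R, hR⟩ : ∃ R : ℝ, R = 27 / 16 * (√15 - 3) := ⟨_, rfl⟩
  obtain ⟨T, hT⟩ : ∃ T : ℝ, T = 729 / 512 * (9 - 2 * √15) := ⟨_, rfl⟩
  have R0 : 1.473 ≤ R := by rw [hR]; linarith
  have h : 0 ≤ R ^ 3 - T ^ 2 := by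
    have h1 : 1.473 ^ 3 ≤ R ^ 3 := pow_le_pow_left₀ (by norm_num) R0 3
    have h2 : T ^ 2 ≤ 1.786 ^ 2 := pow_le_pow_left₀ (by rw [hT]; linarith) (by rw [hT]; linarith) 2
    norm_num at h1 h2
    linarith
  obtain ⟨A, hA⟩ := IsAlgClosed.exists_pow_nat_eq (⟨T, √(R ^ 3 - T ^ 2)⟩ : ℂ) (n := 3) (by norm_num)
  refine ⟨A, ?_, by rw [hA, ← hT]⟩
  have e : (‖A‖ ^ 2) ^ 3 = R ^ 3 := by
    rw [← pow_mul, mul_comm, pow_mul, ← norm_pow, hA, Complex.sq_norm, normSq_apply]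
    simp only
    nlinarith [Real.sq_sqrt h]
  rw [← hR]
  exact (pow_left_inj₀ (by positivity) (by linarith) (by norm_num)).1 e

end Pool.Agent.MP_d3fa2a_an.Q4L
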