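import Pool.Agent.MP_d3fa2a_an.Q4L.AF

/-! The polynomial tests of the region lemma. Constants: six multipliers, the two coordinates of
the corner, then rational numbers. Variables: two coordinates, `η`, `Re B`, `Im B`. -/

namespace Pool.Agent.MP_d3fa2a_an.Q4L

open Ex

def eC : Ex := sub (k 9) v2
def eC2 : Ex := mul eC eC
def eM : Ex := sub (k 8) eC2
def eD : Ex := sub (k 14) (cm 13 eC2)
def eMu : Ex := sub (k 8) (cm 12 eC2)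
def eNu : Ex := mul eC eD
def eKa : Ex := cm 15 eC
def eX (xp : Ex) : Ex := add xp (cm 10 v2)
def eY (yp : Ex) : Ex := add yp (cm 11 (mul v2 v4))
def eA1 (xp : Ex) : Ex := sub (mul eMu (eX xp)) (mul eNu v3)
def eA2 (yp : Ex) : Ex := add (mul eMu (eY yp)) (mul eNu v4)
def eB1 (xp : Ex) : Ex := add (mul eKa (eX xp)) (mul eD v3)
def eB2 (yp : Ex) : Ex := sub (mul eD v4) (mul eKa (eY yp))
def eZ1 (p q : Ex) : Ex := sub (cm 4 p) (cm 5 q)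
def eZ2 (p q : Ex) : Ex := add (cm 4 q) (cm 5 p)

def psi (xp yp : Ex) : Ex :=
  add (mul eM (sub (cm 0 eM) (add (cm 2 (eA1 xp)) (cm 3 (eA2 yp)))))
    (add (mul (eB1 xp) (sub (eZ1 (eA1 xp) (eA2 yp)) (cm 1 (eB1 xp))))
      (mul (eB2 yp) (sub (eZ2 (eA1 xp) (eA2 yp)) (cm 1 (eB2 yp)))))

def dx (xp yp : Ex) : Ex :=
  add (mul eKa (sub (eZ1 (eA1 xp) (eA2 yp)) (cm 27 (cm 1 (eB1 xp)))))
    (mul eMu (sub (add (cm 4 (eB1 xp)) (cm 5 (eB2 yp))) (cm 2 eM)))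

def dy (xp yp : Ex) : Ex :=
  add (mul eKa (sub (cm 27 (cm 1 (eB2 yp))) (eZ2 (eA1 xp) (eA2 yp))))
    (mul eMu (sub (sub (cm 4 (eB2 yp)) (cm 5 (eB1 xp))) (cm 3 eM)))

def eM1 : Ex := sub (k 16) v2
def eH : Ex := cm 13 eM1
def eCH : Ex := mul eC eH
def eP : Ex := cm 12 eM1
def fA1 (xp : Ex) : Ex := sub (add (cm 18 (k 10)) (mul eP (eX xp))) (mul eCH v3)
def fA2 (yp : Ex) : Ex := add (add (cm 20 v4) (mul eP (eY yp))) (mul eCH v4)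
def fB1 (xp : Ex) : Ex := add (sub (cm 19 (k 10)) (cm 15 (eX xp))) (mul eH v3)
def fB2 (yp : Ex) : Ex := add (sub (cm 15 (eY yp)) (cm 19 (cm 11 v4))) (mul eH v4)

def de (xp yp : Ex) : Ex :=
  add (sub (mul eM1 (sub (cm 0 (add eM (k 17))) (add (cm 2 (eA1 xp)) (cm 3 (eA2 yp)))))
      (cm 17 (add (cm 2 (fA1 xp)) (cm 3 (fA2 yp)))))
    (add (add (mul (fB1 xp) (sub (eZ1 (eA1 xp) (eA2 yp)) (cm 1 (add (eB1 xp) (cm 19 xp)))))
        (mul (fB2 yp) (sub (eZ2 (eA1 xp) (eA2 yp)) (cm 1 (sub (eB2 yp) (cm 19 yp))))))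
      (sub (mul (cm 19 xp) (eZ1 (fA1 xp) (fA2 yp))) (mul (cm 19 yp) (eZ2 (fA1 xp) (fA2 yp)))))

def eL (xp : Ex) : Ex := add (sub (add v3 (cm 21 (mul eC v3))) (cm 22 (eX xp))) (k 23)

def disc : Ex := sub (k 8) (add (mul v3 v3) (mul v4 v4))

def xe : Ex := add (sub (k 6) v1) v0
def xm : Ex := sub (k 6) (cm 16 v1)
def ym : Ex := add (k 7) (cm 16 v1)
def yp : Ex := add (k 7) v1
def yn : Ex := sub (k 7) v1

def tC : Ex := add (de (k 6) (k 7)) (cm 24 (eL (k 6)))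
def tB : Ex := add (sub (dy xm ym) (dx xm ym)) (cm 24 (cm 22 v2))
def tA : Ex := sub (dx (add (sub (k 6) v1) (cm 16 v0)) yp) (cm 24 (cm 22 v2))
def tP : Ex := add (psi xe yp) (cm 24 (mul v2 (eL xe)))
def tC3 : Ex := add (de (k 6) yn) (cm 16 (eL (k 6)))
def tA3 : Ex := sub (dx (add (k 6) (cm 16 v0)) yn) (cm 16 (cm 22 v2))
def tB3 : Ex := sub (sub (k 8) (k 8)) (dy (k 6) (sub (k 7) (cm 16 v1)))
def tR : Ex := sub (add (mul v0 v0) (mul v1 v1)) (k 25)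
def tS : Ex := sub (cm 26 (mul (eX v0) (eX v0))) (mul (eY v1) (eY v1))
def tT : Ex := sub (add v0 v1) (add (k 6) (k 7))

def ratI : List Iv := [⟨1334311325678, 21990⟩, ⟨23531197895, 1099511⟩,
  ⟨1099511627776, 1⟩, ⟨274877906944, 1⟩, ⟨109951162777, 1⟩,
  ⟨1759218604441, 1⟩, ⟨2932031007402, 1⟩, ⟨5864062014805, 1⟩, ⟨366503875925, 1⟩,
  ⟨1832519379626, 1⟩, ⟨549755813888, 1⟩, ⟨1030792151040, 1⟩, ⟨916259689813, 1⟩,
  ⟨458129844906, 1⟩, ⟨1466015503701, 1⟩, ⟨7916483719987, 1⟩, ⟨3958241859993, 1⟩,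
  ⟨2880720464773, 1⟩, ⟨824633720832, 1⟩, ⟨890604418498, 1⟩, ⟨3298534883328, 1⟩,
  ⟨2199023255552, 1⟩]

def kN : List Iv := ⟨3390677793637, 329853488⟩ :: ⟨6956225951204, 329853488⟩ ::
  ⟨4360743503148, 329853488⟩ :: ⟨1455810547429, 329853488⟩ :: ⟨5868794898170, 329853488⟩ ::
  ⟨2350317285197, 329853488⟩ :: ratI

def k3 : List Iv := ⟨858955888982, 5497558⟩ :: ⟨328091954754, 5497558⟩ ::
  ⟨530858774459, 5497558⟩ :: ⟨2340564677, 5497558⟩ :: ⟨-328088765842, 5497558⟩ ::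
  ⟨-1446548523, 5497558⟩ :: ratI

def kF : List Iv := ⟨1099511627776, 109951⟩ :: ⟨2878558812543, 109951⟩ ::
  ⟨1067428310860, 109951⟩ :: ⟨1423237747813, 109951⟩ :: ⟨1727135287525, 109951⟩ ::
  ⟨2302847050034, 109951⟩ :: ratI

def bx (a b c d e f g h i j : ℤ) : Box := ⟨.mil a b, .mil c d, .mil e f, .mil g h, .mil i j⟩

end Pool.Agent.MP_d3fa2a_an.Q4L
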