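import Pool.Agent.Mg.Fd3fa2a.Gc16755
import Pool.Agent.MP_d3fa2a_an.Q4L.Region

/-! Necessary conditions for a univalent quartic. -/

namespace Pool.Agent.MP_d3fa2a_an.Q4L

open Complex Metric Set ComplexConjugate

lemma quad_fac (α β : ℂ) : ∃ s t : ℂ, α = s + t ∧ β = s * t := by
  obtain ⟨w, hw⟩ := IsAlgClosed.exists_pow_nat_eq (α ^ 2 - 4 * β) (n := 2) (by norm_num)
  exact ⟨(α + w) / 2, (α - w) / 2, by ring, by linear_combination (1 / 4 : ℂ) * hw⟩

lemma cub_fac (α β γ : ℂ) : ∃ r s t : ℂ, α = r + s + t ∧ β = r * s + r * t + s * t ∧ γ = r * s * t := by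
  obtain ⟨r, hr⟩ := Complex.exists_root
    (f := Polynomial.X ^ 3 - Polynomial.C α * Polynomial.X ^ 2 + Polynomial.C β * Polynomial.X -
      Polynomial.C γ) (by
      have : (Polynomial.X ^ 3 - Polynomial.C α * Polynomial.X ^ 2 + Polynomial.C β * Polynomial.X -
        Polynomial.C γ : Polynomial ℂ).degree = 3 := by compute_degree!
      rw [this]; norm_num)
  have hr' : r ^ 3 - α * r ^ 2 + β * r - γ = 0 := by simpa using hr
  obtain ⟨s, t, h1, h2⟩ := quad_fac (α - r) (β - r * (α - r))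
  exact ⟨r, s, t, by linear_combination h1, by linear_combination h2 + r * h1,
    by linear_combination r * h2 - hr'⟩

lemma le_one_of {s : ℂ} (h : ∀ z : ℂ, ‖z‖ < 1 → 1 + s * z ≠ 0) : ‖s‖ ≤ 1 := by
  by_contra hs
  push Not at hs
  have h0 : s ≠ 0 := by
    rintro rfl
    norm_num at hs
  refine h (-s⁻¹) ?_ (by field_simp; ring)
  rw [norm_neg, norm_inv]
  exact inv_lt_one_of_one_lt₀ hs

lemma blas {s z : ℂ} (hs : ‖s‖ ≤ 1) (hz : ‖z‖ ≤ 1) : ‖z + conj s‖ ≤ ‖1 + s * z‖ := by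
  apply abs_le_of_sq_le_sq' _ (norm_nonneg _) |>.2
  have h1 : ‖s‖ ^ 2 ≤ 1 := by nlinarith [norm_nonneg s]
  have h2 : ‖z‖ ^ 2 ≤ 1 := by nlinarith [norm_nonneg z]
  rw [Complex.sq_norm, normSq_apply] at h1 h2
  rw [Complex.sq_norm, Complex.sq_norm]
  simp only [normSq_apply, add_re, add_im, mul_re, mul_im, conj_re, conj_im, one_re, one_im]
  nlinarith [mul_nonneg (sub_nonneg.2 h1) (sub_nonneg.2 h2)]

lemma quad_psd {α β : ℂ} (h : ∀ z : ℂ, ‖z‖ < 1 → 1 + α * z + β * z ^ 2 ≠ 0) :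
    0 ≤ 131 / 50 + β.re - 9 / 5 * α.re := by
  obtain ⟨s, t, rfl, rfl⟩ := quad_fac α β
  have hs : ‖s‖ ≤ 1 := le_one_of fun z hz e => h z hz (by linear_combination (1 + t * z) * e)
  have ht : ‖t‖ ≤ 1 := le_one_of fun z hz e => h z hz (by linear_combination (1 + s * z) * e)
  have h1 : ‖s‖ ^ 2 ≤ 1 := by nlinarith [norm_nonneg s]
  have h2 : ‖t‖ ^ 2 ≤ 1 := by nlinarith [norm_nonneg t]
  rw [Complex.sq_norm, normSq_apply] at h1 h2
  simp only [add_re, mul_re]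
  nlinarith [sq_nonneg (s.im - t.im), sq_nonneg (s.re + t.re - 9 / 5)]

/-- one Schur-Cohn step for a cubic, in closed form -/
def Red (α β γ : ℂ) : Prop :=
  ‖γ‖ ≤ 1 ∧ ‖α‖ ≤ 3 ∧ ‖β - γ * conj α‖ ≤ 1 - ‖γ‖ ^ 2 ∧
    ‖((1 - ‖γ‖ ^ 2 : ℝ) : ℂ) * (α - γ * conj β) - conj (α - γ * conj β) * (β - γ * conj α)‖ ≤
      (1 - ‖γ‖ ^ 2) ^ 2 - ‖β - γ * conj α‖ ^ 2 ∧
    0 ≤ 131 / 50 * (1 - ‖γ‖ ^ 2) + (β - γ * conj α).re - 9 / 5 * (α - γ * conj β).re

lemma red_closed {α β γ : ℝ → ℂ} (ha : Continuous α) (hb : Continuous β) (hc : Continuous γ) :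
    IsClosed {r | Red (α r) (β r) (γ r)} := by
  unfold Red
  simp only [Set.ofPred_and]
  refine IsClosed.inter ?_ (IsClosed.inter ?_ (IsClosed.inter ?_ (IsClosed.inter ?_ ?_))) <;>
    apply isClosed_le <;> fun_prop

lemma red_lt {α β γ : ℂ} (h : ∀ z : ℂ, ‖z‖ < 1 → 1 + α * z + β * z ^ 2 + γ * z ^ 3 ≠ 0)
    (hγ : ‖γ‖ < 1) : Red α β γ := by
  obtain ⟨r, s, t, ha, hb, hc⟩ := cub_fac α β γ
  have fac : ∀ z : ℂ, 1 + α * z + β * z ^ 2 + γ * z ^ 3 = (1 + r * z) * (1 + s * z) * (1 + t * z) := by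
    intro z; rw [ha, hb, hc]; ring
  have hr : ‖r‖ ≤ 1 := le_one_of fun z hz e => h z hz (by rw [fac, e]; ring)
  have hs : ‖s‖ ≤ 1 := le_one_of fun z hz e => h z hz (by rw [fac, e]; ring)
  have ht : ‖t‖ ≤ 1 := le_one_of fun z hz e => h z hz (by rw [fac, e]; ring)
  set q : ℝ := 1 - ‖γ‖ ^ 2 with hq
  have q0 : 0 < q := by nlinarith [norm_nonneg γ]
  have qc : (q : ℂ) ≠ 0 := by exact_mod_cast q0.ne'
  have qe : (q : ℂ) = 1 - γ * conj γ := by rw [hq, mul_conj']; push_cast; ring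
  set A := α - γ * conj β with hA
  set B := β - γ * conj α with hB
  have hQ : ∀ z : ℂ, ‖z‖ < 1 → 1 + A / q * z + B / q * z ^ 2 ≠ 0 := by
    intro z hz e
    have e1 : (q : ℂ) + A * z + B * z ^ 2 = 0 := by
      field_simp at e
      linear_combination e
    have e2 : (1 + r * z) * (1 + s * z) * (1 + t * z) =
        γ * ((z + conj r) * (z + conj s) * (z + conj t)) := by
      have ea : conj α = conj r + conj s + conj t := by rw [ha]; simp
      have eb : conj β = conj r * conj s + conj r * conj t + conj s * conj t := by rw [hb]; simp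
      have ec : conj γ = conj r * conj s * conj t := by rw [hc]; simp
      rw [← fac]
      rw [qe, hA, hB, ea, eb, ec] at e1
      linear_combination e1
    have n1 : ‖(z + conj r) * (z + conj s) * (z + conj t)‖ ≤ ‖(1 + r * z) * (1 + s * z) * (1 + t * z)‖ := by
      simp only [norm_mul]
      gcongr <;> exact blas ‹_› hz.le
    have n2 : 0 < ‖(1 + r * z) * (1 + s * z) * (1 + t * z)‖ := by
      rw [← fac]; exact norm_pos_iff.2 (h z hz)
    have n3 := congrArg norm e2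
    rw [norm_mul γ] at n3
    nlinarith [norm_nonneg γ, norm_nonneg ((z + conj r) * (z + conj s) * (z + conj t))]
  obtain ⟨g1, g2⟩ := schur hQ
  have g3 := quad_psd hQ
  rw [norm_div, Complex.norm_real, Real.norm_of_nonneg q0.le] at g1 g2
  refine ⟨hγ.le, ?_, (div_le_one q0).1 g1, ?_, ?_⟩
  · rw [ha]
    linarith [norm_add₃_le (a := r) (b := s) (c := t)]
  · have e : (q : ℂ) * A - conj A * B = (q ^ 2 : ℝ) * (A / q - conj (A / q) * (B / q)) := by
      rw [map_div₀, conj_ofReal]; push_cast; field_simp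
    rw [e, norm_mul, Complex.norm_real, Real.norm_of_nonneg (by positivity)]
    calc q ^ 2 * ‖A / q - conj (A / q) * (B / q)‖ ≤ q ^ 2 * (1 - (‖B‖ / q) ^ 2) := by gcongr
      _ = q ^ 2 - ‖B‖ ^ 2 := by field_simp
  · rw [div_ofReal_re, div_ofReal_re] at g3
    have := mul_nonneg q0.le g3
    have e : q * (131 / 50 + B.re / q - 9 / 5 * (A.re / q)) = 131 / 50 * q + B.re - 9 / 5 * A.re := by
      field_simp
    linarith

lemma red {α β γ : ℂ} (h : ∀ z : ℂ, ‖z‖ < 1 → 1 + α * z + β * z ^ 2 + γ * z ^ 3 ≠ 0) :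
    Red α β γ := by
  obtain ⟨r, s, t, ha, hb, hc⟩ := cub_fac α β γ
  have fac : ∀ z : ℂ, 1 + α * z + β * z ^ 2 + γ * z ^ 3 = (1 + r * z) * (1 + s * z) * (1 + t * z) := by
    intro z; rw [ha, hb, hc]; ring
  have hr : ‖r‖ ≤ 1 := le_one_of fun z hz e => h z hz (by rw [fac, e]; ring)
  have hs : ‖s‖ ≤ 1 := le_one_of fun z hz e => h z hz (by rw [fac, e]; ring)
  have ht : ‖t‖ ≤ 1 := le_one_of fun z hz e => h z hz (by rw [fac, e]; ring)
  have hγ : ‖γ‖ ≤ 1 := by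
    rw [hc, norm_mul, norm_mul]
    exact mul_le_one₀ (mul_le_one₀ hr (norm_nonneg _) hs) (norm_nonneg _) ht
  have hcl := red_closed (α := fun x : ℝ => x * α) (β := fun x : ℝ => x ^ 2 * β)
    (γ := fun x : ℝ => x ^ 3 * γ) (by fun_prop) (by fun_prop) (by fun_prop)
  have hsub : Ioo (0 : ℝ) 1 ⊆ {x : ℝ | Red (x * α) (x ^ 2 * β) (x ^ 3 * γ)} := by
    intro x hx
    have nx : ‖(x : ℂ)‖ = x := by rw [Complex.norm_real, Real.norm_of_nonneg hx.1.le]
    apply red_lt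
    · intro z hz e
      refine h (x * z) ?_ (by linear_combination e)
      rw [norm_mul, nx]
      nlinarith [hx.1, hx.2, norm_nonneg z]
    · rw [norm_mul, norm_pow, nx]
      have : x ^ 3 < 1 := pow_lt_one₀ hx.1.le hx.2 (by norm_num)
      nlinarith [norm_nonneg γ, pow_pos hx.1 3]
  have := hcl.closure_subset_iff.2 hsub
  rw [closure_Ioo (by norm_num)] at this
  simpa using this (show (1 : ℝ) ∈ Icc (0 : ℝ) 1 by simp)

lemma unimod {u : ℝ} (h : |u| ≤ 2) : ∃ κ : ℂ, ‖κ‖ = 1 ∧ κ + conj κ = u := by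
  have hpos : 0 ≤ 1 - u ^ 2 / 4 := by nlinarith [abs_le.1 h]
  have hv := Real.sq_sqrt hpos
  refine ⟨⟨u / 2, √(1 - u ^ 2 / 4)⟩, ?_, ?_⟩
  · have : ‖(⟨u / 2, √(1 - u ^ 2 / 4)⟩ : ℂ)‖ ^ 2 = 1 := by
      rw [Complex.sq_norm, normSq_apply]
      simp only
      nlinarith
    nlinarith [norm_nonneg (⟨u / 2, √(1 - u ^ 2 / 4)⟩ : ℂ)]
  · apply Complex.ext <;> simp

variable {a b c : ℂ}

lemma zero_free4 (h : InjOn (fun z : ℂ => z + a * z ^ 2 + b * z ^ 3 + c * z ^ 4) (ball 0 1))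
    {u : ℝ} (h0 : 0 < u) (h2 : u < 2) (z : ℂ) (hz : ‖z‖ < 1) :
    1 + (u * a) * z + ((u ^ 2 - 1) * b) * z ^ 2 + ((u ^ 3 - 2 * u) * c) * z ^ 3 ≠ 0 := by
  intro hzero
  have hz0 : z ≠ 0 := by
    rintro rfl
    simp at hzero
  obtain ⟨κ, nκ, hsum⟩ := unimod (u := u) (abs_le.2 ⟨by linarith, h2.le⟩)
  have hprod : κ * conj κ = 1 := by rw [mul_conj', nκ]; simp
  have e := h (x₁ := κ * z) (x₂ := conj κ * z) (by simp [nκ, hz]) (by simp [nκ, hz]) (by
    show κ * z + a * (κ * z) ^ 2 + b * (κ * z) ^ 3 + c * (κ * z) ^ 4 =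
      conj κ * z + a * (conj κ * z) ^ 2 + b * (conj κ * z) ^ 3 + c * (conj κ * z) ^ 4
    rw [← hsum] at hzero
    linear_combination (κ - conj κ) * z * hzero - (κ - conj κ) * z ^ 3 * b * hprod -
      2 * (κ - conj κ) * (κ + conj κ) * z ^ 4 * c * hprod)
  have e2 : κ = conj κ := mul_right_cancel₀ hz0 e
  have e3 : (u : ℂ) ^ 2 = 4 := by
    rw [← hsum]
    linear_combination 4 * hprod + (κ - conj κ) * e2
  have e4 : u ^ 2 = 4 := by exact_mod_cast e3
  nlinarith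

lemma red_u (h : InjOn (fun z : ℂ => z + a * z ^ 2 + b * z ^ 3 + c * z ^ 4) (ball 0 1))
    {u : ℝ} (h0 : 0 < u) (h2 : u ≤ 2) :
    Red (u * a) ((u ^ 2 - 1) * b) ((u ^ 3 - 2 * u) * c) := by
  have hcl := red_closed (α := fun x : ℝ => x * a) (β := fun x : ℝ => (x ^ 2 - 1) * b)
    (γ := fun x : ℝ => (x ^ 3 - 2 * x) * c) (by fun_prop) (by fun_prop) (by fun_prop)
  have hsub : Ioo (0 : ℝ) 2 ⊆ {x : ℝ | Red (x * a) ((x ^ 2 - 1) * b) ((x ^ 3 - 2 * x) * c)} :=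
    fun x hx => red (zero_free4 h hx.1 hx.2)
  have := hcl.closure_subset_iff.2 hsub
  rw [closure_Ioo (by norm_num)] at this
  exact this ⟨h0.le, h2⟩

lemma sq_of {W : ℂ} {p q N : ℝ} (h : ‖W‖ ≤ N) (hp : W.re = p) (hq : W.im = q) :
    0 ≤ N ∧ p ^ 2 + q ^ 2 ≤ N ^ 2 := by
  refine ⟨(norm_nonneg _).trans h, ?_⟩
  have := pow_le_pow_left₀ (norm_nonneg _) h 2
  rw [Complex.sq_norm, normSq_apply, hp, hq] at this
  linarith

theorem hyp_of {c f : ℝ} (hc : 0 ≤ c) (hf : f ^ 2 = f + 1) (f1 : 1 < f)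
    (h : InjOn (fun z : ℂ => z + a * z ^ 2 + b * z ^ 3 + c * z ^ 4) (ball 0 1)) :
    ∃ e u v : ℝ, c = 1 / 4 - e ∧ b = 8 / 3 * c * conj a + rD e * (u + v * I) ∧
      Hyp f a.re a.im e u v := by
  have f2 : f < 2 := by nlinarith
  obtain ⟨g1, g2, g3, -, g5⟩ := red_u h (u := 2) (by norm_num) le_rfl
  obtain ⟨-, -, -, k1, -⟩ := red_u h (u := f) (by linarith) f2.le
  obtain ⟨-, -, -, k2, -⟩ := red_u h (u := f - 1) (by linarith) (by linarith)
  have hfc : (f : ℂ) ^ 2 = f + 1 := by exact_mod_cast hf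
  have e1 : ((f : ℂ) ^ 2 - 1) * b = f * b := by rw [hfc]; ring
  have e2 : ((f : ℂ) ^ 3 - 2 * f) * c = c := by linear_combination (f + 1) * c * hfc
  have e3 : (((f - 1 : ℝ) : ℂ) ^ 2 - 1) * b = -((f - 1 : ℝ) : ℂ) * b := by
    push_cast; linear_combination b * hfc
  have e4 : (((f - 1 : ℝ) : ℂ) ^ 3 - 2 * ((f - 1 : ℝ) : ℂ)) * c = -c := by
    push_cast; linear_combination (f - 2) * c * hfc
  have e5 : (((2 : ℝ) : ℂ) ^ 3 - 2 * ((2 : ℝ) : ℂ)) * c = ((4 * c : ℝ) : ℂ) := by push_cast; ring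
  have nc : ‖(c : ℂ)‖ = c := by rw [Complex.norm_real, Real.norm_of_nonneg hc]
  have nc4 : ‖((4 * c : ℝ) : ℂ)‖ = 4 * c := by
    rw [Complex.norm_real, Real.norm_of_nonneg (by linarith)]
  rw [e1, e2, nc] at k1
  rw [e3, e4, norm_neg, nc] at k2
  rw [e5, nc4] at g1 g3 g5
  have na : ‖a‖ ≤ 3 / 2 := by
    rw [norm_mul] at g2
    norm_num at g2
    linarith
  have hre := (Complex.abs_re_le_norm a).trans na
  have him := (Complex.abs_im_le_norm a).trans na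
  obtain ⟨u, v, hb, hd, hL⟩ : ∃ u v : ℝ, b = 8 / 3 * c * conj a + rD (1 / 4 - c) * (u + v * I) ∧
      u ^ 2 + v ^ 2 ≤ 1 ∧ 0 ≤ rL a.re (1 / 4 - c) u := by
    have eD : rD (1 / 4 - c) = (1 - (4 * c) ^ 2) / 3 := by unfold rD; ring
    rcases eq_or_lt_of_le g1 with g | g
    · have c4 : c = 1 / 4 := by linarith
      rw [g] at g3
      have g4 := norm_le_zero_iff.1 (g3.trans_eq (by norm_num))
      refine ⟨1, 0, ?_, by norm_num, ?_⟩
      · rw [eD, g]
        simp only [map_mul, conj_ofReal] at g4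
        rw [c4]
        push_cast at g4 ⊢
        linear_combination (1 / 3 : ℂ) * g4
      · unfold rL
        rw [c4]
        linarith [(abs_le.1 hre).2]
    · set δ : ℝ := 1 - (4 * c) ^ 2 with hδ
      have δ0 : 0 < δ := by nlinarith
      have δc : (δ : ℂ) ≠ 0 := by exact_mod_cast δ0.ne'
      set B : ℂ := (3 * b - 8 * c * conj a) / δ with hB
      have eB : (((2 : ℝ) : ℂ) ^ 2 - 1) * b - ((4 * c : ℝ) : ℂ) * conj (((2 : ℝ) : ℂ) * a) = δ * B := by
        rw [hB, map_mul, conj_ofReal]; push_cast; field_simp; ring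
      have eb : b = 8 / 3 * c * conj a + δ / 3 * B := by rw [hB]; field_simp; ring
      have eA : ((2 : ℝ) : ℂ) * a - ((4 * c : ℝ) : ℂ) * conj ((((2 : ℝ) : ℂ) ^ 2 - 1) * b) =
          δ * (2 * a - 4 * c * conj B) := by
        rw [eb, hδ]
        simp only [map_mul, map_add, map_sub, map_pow, map_div₀, conj_ofReal, conj_conj, map_one,
          map_ofNat]
        push_cast
        ring
      rw [eB] at g3 g5
      rw [eA] at g5
      rw [norm_mul, Complex.norm_real, Real.norm_of_nonneg δ0.le] at g3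
      refine ⟨B.re, B.im, by rw [eD, re_add_im]; push_cast; exact eb, ?_, ?_⟩
      · have : ‖B‖ ≤ 1 := by nlinarith
        have h2 : ‖B‖ ^ 2 ≤ 1 := by nlinarith [norm_nonneg B]
        rw [Complex.sq_norm, normSq_apply] at h2
        linarith
      · simp only [sub_re, mul_re, re_ofNat, im_ofNat, ofReal_re, ofReal_im, conj_re,
          conj_im, mul_im] at g5
        unfold rL
        by_contra hn
        push Not at hn
        nlinarith [mul_pos δ0 (neg_pos.2 hn)]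
  have b1 : b.re = 8 / 3 * c * a.re + rD (1 / 4 - c) * u := by rw [hb]; simp
  have b2 : b.im = -(8 / 3 * c * a.im) + rD (1 / 4 - c) * v := by rw [hb]; simp
  have m1 := sq_of k1 rfl rfl
  have m2 := sq_of k2 rfl rfl
  rw [Complex.sq_norm, normSq_apply] at m1 m2
  simp only [sub_re, sub_im, mul_re, mul_im, ofReal_re, ofReal_im, conj_re, conj_im, neg_re, neg_im,
    b1, b2] at m1 m2
  refine ⟨1 / 4 - c, u, v, by ring, hb, by linarith, by linarith, hd, hL, him, ?_, ?_, ?_, ?_⟩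
  · convert m1.1 using 1
    simp only [rM, rN, rB1, rB2]; ring
  · convert m1.2 using 2 <;> simp only [rM, rN, rP, rQ, rA1, rA2, rB1, rB2] <;> ring
  · convert m2.1 using 1
    simp only [rM, rN, rB1, rB2]; ring
  · convert m2.2 using 2 <;> simp only [rM, rN, rP, rQ, rA1, rA2, rB1, rB2] <;> ring

end Pool.Agent.MP_d3fa2a_an.Q4L
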